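import Pool.Agent.H4R2.AE.Weak
import Pool.Agent.H613R2.AE.Layer

/-! Dimension three: `ℓ²` bound of the Green function with mass of order `1/L²` on the torus. -/

set_option autoImplicit false

open scoped BigOperators ENNReal

namespace Pool.Agent.W788

open Pool.Agent.H4R2.AE

/-- `∑ G² ≤ A L` in dimension three -/
theorem sq_bound3 : ∃ A : ℝ, 1 ≤ A ∧ ∀ (L : ℕ) [NeZero L] 
    (u k Gr : T 3 L → ℝ) (x0 : T 3 L), (∀ x, 1 / 2 ≤ u x) →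
      (∀ x, 1 / (8 * (L : ℝ) ^ 2) ≤ k x) → (∀ x, 0 ≤ Gr x) →
      (∀ x, LapW u Gr x + k x * Gr x = if x = x0 then 1 else 0) →
      ∑ z, Gr z ^ 2 ≤ A * L := by
  obtain ⟨A, hA, HA⟩ := Weak.weak 3 (by norm_num)
  have hA0 : 0 < A := by linarith
  have hA2 : 1 ≤ A ^ ((2 : ℝ) / 3) := Real.one_le_rpow hA (by norm_num)
  refine ⟨3 * A ^ ((2 : ℝ) / 3), by linarith, ?_⟩
  intro L _ u k Gr x0 hu hk hGr hh
  have h1 := HA L u k Gr x0 hu hk hGr hh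
  have hp : ((3 : ℕ) : ℝ) / (((3 : ℕ) : ℝ) - 2) = 3 := by norm_num
  rw [hp] at h1
  have h3 := Layer.layer_sort Gr 3 A (by norm_num) hGr hA0.le h1 (fun y => y ^ 2)
    (fun x hx y hy hxy => by
      have hx' : (0 : ℝ) ≤ x := hx
      change x ^ 2 ≤ y ^ 2
      gcongr) (Fintype.card (T 3 L)) Finset.univ Finset.card_univ
  refine h3.trans ?_
  have hr : ∀ j : ℕ, (fun y : ℝ => y ^ 2) ((A / ((j : ℝ) + 1)) ^ (1 / (3 : ℝ))) =
      A ^ ((2 : ℝ) / 3) * ((j : ℝ) + 1) ^ (-((2 : ℝ) / 3)) := by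
    intro j
    have hj : (0 : ℝ) < (j : ℝ) + 1 := by positivity
    change ((A / ((j : ℝ) + 1)) ^ (1 / (3 : ℝ))) ^ 2 = _
    rw [← Real.rpow_natCast, ← Real.rpow_mul (by positivity), Real.div_rpow hA0.le hj.le,
      Real.rpow_neg hj.le, ← div_eq_mul_inv]
    norm_num
  rw [Finset.sum_congr rfl fun j _ => hr j, ← Finset.mul_sum]
  have h4 := Layer.layer_l1 ((2 : ℝ) / 3) (by norm_num) (by norm_num) (Fintype.card (T 3 L))
  have hcard : (Fintype.card (T 3 L) : ℝ) = (L : ℝ) ^ 3 := by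
    simp [T, Fintype.card_pi, ZMod.card]
  have hL0 : (0 : ℝ) ≤ L := Nat.cast_nonneg L
  have h5 : ((Fintype.card (T 3 L) : ℝ)) ^ (1 - (2 : ℝ) / 3) = L := by
    rw [hcard, ← Real.rpow_natCast, ← Real.rpow_mul hL0]
    norm_num
  rw [h5] at h4
  calc A ^ ((2 : ℝ) / 3) * ∑ j ∈ Finset.range (Fintype.card (T 3 L)),
        ((j : ℝ) + 1) ^ (-((2 : ℝ) / 3)) ≤ A ^ ((2 : ℝ) / 3) * (L / (1 - (2 : ℝ) / 3)) := by gcongr
    _ = 3 * A ^ ((2 : ℝ) / 3) * L := by ring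

end Pool.Agent.W788
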