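import Pool.Agent.H4R2.AE.TorG
import Pool.Agent.W788.Green3

/-! Gaussian disorder, dimension three: flat top eigenvectors on tori of side `c / (σ² log (1/σ))`. -/

set_option autoImplicit false

open scoped BigOperators ENNReal
open MeasureTheory ProbabilityTheory

namespace Pool.Agent.W788.Tor3

open Pool.Agent.H4R2.AE
open Pool.Agent.H4R2.AE.Core (FlatE close L_pos one_le_L)
open Pool.Agent.H4R2.AE.Core2 (k_ok)

/-- arithmetic: `log (1/σ)` facts for small `σ` -/
theorem log_facts (P c : ℝ) (hP : 1 ≤ P) (hc1 : c ≤ 1 / (16 * P)) (σ : ℝ)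
    (hσ : 0 < σ) (hσc : σ ≤ c) :
    1 ≤ Real.log (1 / σ) ∧ P * Real.log (1 / σ) ≤ 1 / (2 * σ ^ 2) := by
  have h16 : σ ≤ 1 / 16 := by
    refine hσc.trans (hc1.trans ?_)
    apply one_div_le_one_div_of_le (by norm_num)
    linarith
  have hinv : 16 ≤ 1 / σ := by
    rw [le_div_iff₀ hσ]
    linarith
  constructor
  · have h1 : Real.exp 1 ≤ 1 / σ := by
      have := Real.exp_one_lt_d9
      linarith
    rw [Real.le_log_iff_exp_le (by positivity)]
    exact h1
  · have h2 : Real.log (1 / σ) ≤ 1 / σ := by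
      have := Real.log_le_sub_one_of_pos (show (0 : ℝ) < 1 / σ by positivity)
      linarith
    have h3 : σ * P ≤ 1 / 16 := by
      have h4 : σ * (16 * P) ≤ 1 := by
        have := hσc.trans hc1
        rwa [le_div_iff₀ (by positivity)] at this
      linarith
    calc P * Real.log (1 / σ) ≤ P * (1 / σ) := by gcongr
      _ = (σ * P) / σ ^ 2 := by field_simp
      _ ≤ (1 / 16) / σ ^ 2 := by gcongr
      _ ≤ 1 / (2 * σ ^ 2) := by
          rw [div_le_div_iff₀ (by positivity) (by positivity)]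
          nlinarith [sq_nonneg σ]

theorem exp_log (σ P : ℝ) (hσ : 0 < σ) : Real.exp (-(P * Real.log (1 / σ))) = σ ^ P := by
  rw [one_div, Real.log_inv, Real.rpow_def_of_pos hσ]
  congr 1
  ring

/-- the torus theorem for Gaussian disorder, `d = 3` -/
theorem main (η : ℝ) (hη : 0 < η) (hη' : η ≤ 1) :
    ∃ c : ℝ, 0 < c ∧ c ≤ 1 / 16 ∧ ∀ σ : ℝ, 0 < σ → σ ≤ c → ∀ (L : ℕ) [NeZero L],
      (L : ℝ) * (σ ^ 2 * Real.log (1 / σ)) ≤ c →
      ∃ E : ℝ, |E| ≤ 1 ∧ ∃ G : Set (T 3 L → ℝ), MeasurableSet G ∧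
        1 - Real.exp (-(c / (L * σ ^ 2))) ≤
          (Measure.pi fun _ : T 3 L => gaussianReal 0 1).real G ∧
        ∀ ξ ∈ G, (∀ x, |σ * ξ x| ≤ 1) ∧ FlatE σ η (1 / (L : ℝ) ^ 2) E ξ := by
  obtain ⟨C, hC, hflat⟩ := Core2.gen 3 (by norm_num)
  have hC0 : 0 < C := by linarith
  set δ : ℝ := min (1 / 8) (η / C) with hδ
  have hδ0 : 0 < δ := by positivity
  have hδ8 : δ ≤ 1 / 8 := min_le_left _ _
  have hδC : δ ≤ η / C := min_le_right _ _
  obtain ⟨A, hA, HA⟩ := sq_bound3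
  have hA0 : 0 < A := by linarith
  set a : ℝ := δ ^ 2 / (240 * A) with ha
  have ha0 : 0 < a := by positivity
  have ha1 : a ≤ 1 / 8 := by
    rw [ha, div_le_iff₀ (by positivity)]
    nlinarith
  set c : ℝ := a / 16 with hc
  have hcpos : 0 < c := by positivity
  have hc16 : c ≤ 1 / 16 := by linarith
  refine ⟨c, hcpos, hc16, ?_⟩
  intro σ hσ hσc L _ hL
  obtain ⟨hlog, -⟩ := log_facts 1 (1 / 16) le_rfl (by norm_num) σ hσ (hσc.trans hc16)
  have hlog0 : 0 < Real.log (1 / σ) := by linarith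
  have hLpos := L_pos (L := L)
  have hL1 : (1 : ℝ) ≤ L := by exact_mod_cast one_le_L
  obtain ⟨E, hE, G, hGm, hPG, hw⟩ := Goodg.good 3 L (1 / (4 * (L : ℝ) ^ 2)) (by positivity)
    (A * L) (by positivity) σ δ hσ hδ0 hδ8 (fun u Gr x0 h1 h2 h3 =>
      HA L u (fun _ => 1 / (4 * (L : ℝ) ^ 2) * Real.exp (-(4 * δ))) Gr x0 h1
        (fun _ => k_ok L δ hδ8) h2 h3)
  refine ⟨E, hE, G, hGm, ?_, fun ξ hξ => ?_⟩
  · have h1 := probReal_add_probReal_compl
      (μ := Measure.pi fun _ : T 3 L => gaussianReal 0 1) hGm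
    have h2 : (L : ℝ) ^ 3 * (2 * Real.exp (-(δ ^ 2 / (120 * (A * L) * σ ^ 2))) +
          2 * Real.exp (-(1 / (2 * σ ^ 2)))) ≤ Real.exp (-(c / (L * σ ^ 2))) := by
      have hσ1 : σ ≤ 1 / 16 := hσc.trans hc16
      have hLσ : (L : ℝ) ≤ (σ ^ 2)⁻¹ := by
        rw [← one_div, le_div_iff₀ (by positivity)]
        have h3 : (L : ℝ) * σ ^ 2 ≤ (L : ℝ) * (σ ^ 2 * Real.log (1 / σ)) := by
          apply mul_le_mul_of_nonneg_left _ hLpos.le
          nlinarith [sq_nonneg σ]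
        linarith
      obtain ⟨y, hy⟩ : ∃ y : ℝ, y = 1 / (L * σ ^ 2) := ⟨_, rfl⟩
      have hy0 : 0 < y := by rw [hy]; positivity
      have hlogy : 16 * Real.log (1 / σ) ≤ a * y := by
        rw [hy, mul_one_div, le_div_iff₀ (by positivity)]
        have e0 : 16 * Real.log (1 / σ) * (L * σ ^ 2) =
          16 * ((L : ℝ) * (σ ^ 2 * Real.log (1 / σ))) := by ring
        rw [e0]
        linarith
      have e1 : Real.exp (-(δ ^ 2 / (120 * (A * L) * σ ^ 2))) = Real.exp (-(2 * a * y)) := by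
        congr 2
        rw [hy, ha]
        field_simp
        norm_num
      have e2 : Real.exp (-(1 / (2 * σ ^ 2))) ≤ Real.exp (-(2 * a * y)) := by
        apply Real.exp_le_exp.2
        rw [neg_le_neg_iff, hy, mul_one_div, div_le_div_iff₀ (by positivity) (by positivity)]
        have h5 : 2 * a * (2 * σ ^ 2) ≤ 1 * (2 * σ ^ 2) := by
          apply mul_le_mul_of_nonneg_right _ (by positivity)
          linarith
        nlinarith [sq_nonneg σ]
      have e3 : (L : ℝ) ^ 3 ≤ (σ ^ 6)⁻¹ := by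
        calc (L : ℝ) ^ 3 ≤ ((σ ^ 2)⁻¹) ^ 3 := pow_le_pow_left₀ hLpos.le hLσ 3
          _ = (σ ^ 6)⁻¹ := by rw [inv_pow, ← pow_mul]
      have e4 : 4 * (σ ^ 6)⁻¹ ≤ Real.exp (a * y) := by
        have h6 : Real.exp (16 * Real.log (1 / σ)) ≤ Real.exp (a * y) := Real.exp_le_exp.2 hlogy
        have h7 : Real.exp (16 * Real.log (1 / σ)) = (1 / σ) ^ 16 := by
          have h8 : (16 : ℝ) * Real.log (1 / σ) = ((16 : ℕ) : ℝ) * Real.log (1 / σ) := by norm_num
          rw [h8, Real.exp_nat_mul, Real.exp_log (by positivity)]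
        rw [h7] at h6
        refine le_trans ?_ h6
        have h9 : 4 * (σ ^ 6)⁻¹ = 4 * (1 / σ) ^ 6 := by
          rw [one_div, inv_pow]
        have h10 : (16 : ℝ) ≤ 1 / σ := by
          rw [le_div_iff₀ hσ]
          linarith
        have h11 : (1 / σ) ^ 16 = (1 / σ) ^ 10 * (1 / σ) ^ 6 := by ring
        rw [h9, h11]
        apply mul_le_mul_of_nonneg_right _ (by positivity)
        calc (4 : ℝ) ≤ 16 ^ 1 := by norm_num
          _ ≤ (1 / σ) ^ 1 := pow_le_pow_left₀ (by norm_num) h10 1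
          _ ≤ (1 / σ) ^ 10 := pow_le_pow_right₀ (by linarith) (by norm_num)
      have e5 : Real.exp (-(c / (L * σ ^ 2))) = Real.exp (-(c * y)) := by
        congr 2
        rw [hy]
        ring
      rw [e1, e5]
      calc (L : ℝ) ^ 3 * (2 * Real.exp (-(2 * a * y)) + 2 * Real.exp (-(1 / (2 * σ ^ 2))))
          ≤ (σ ^ 6)⁻¹ * (2 * Real.exp (-(2 * a * y)) + 2 * Real.exp (-(2 * a * y))) := by gcongr
        _ = (4 * (σ ^ 6)⁻¹) * Real.exp (-(2 * a * y)) := by ring
        _ ≤ Real.exp (a * y) * Real.exp (-(2 * a * y)) := by gcongr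
        _ = Real.exp (-(a * y)) := by
            rw [← Real.exp_add]
            congr 1
            ring
        _ ≤ Real.exp (-(c * y)) := by
            apply Real.exp_le_exp.2
            nlinarith
    have h3 := hPG.trans h2
    linarith
  · obtain ⟨h1, w, hw1, hw2⟩ := hw ξ hξ
    exact ⟨h1, hflat L σ η E hη hη' ξ w (fun x => (hw1 x).trans hδC) hw2⟩

end Pool.Agent.W788.Tor3
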