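import Pool.Agent.W788.Gen3
import Pool.Agent.W788.Tor3

/-! Dimension three, Gaussian disorder: assembly, in the form `-Δ + σ ω` near the bottom edge. -/

set_option autoImplicit false

open scoped BigOperators ENNReal
open MeasureTheory ProbabilityTheory

namespace Pool.Agent.W788.Fin3

open Pool.Agent.H4R2
open Pool.Agent.H4R2.AE (T LapW Hop)
open Pool.Agent.H4R2.LO (Zd Hg L2f IsGen Reg TorusBound)

/-- elementary facts on `ℓ = σ² log (1/σ)` -/
theorem ell_facts (σ : ℝ) (hσ : 0 < σ) (hσ16 : σ ≤ 1 / 16) :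
    1 ≤ Real.log (1 / σ) ∧ σ ^ 2 ≤ σ ^ 2 * Real.log (1 / σ) ∧ σ ^ 2 * Real.log (1 / σ) ≤ σ := by
  obtain ⟨h1, _⟩ := Tor3.log_facts 1 (1 / 16) le_rfl (by norm_num) σ hσ hσ16
  have h2 : Real.log (1 / σ) ≤ 1 / σ := by
    have := Real.log_le_sub_one_of_pos (show (0 : ℝ) < 1 / σ by positivity)
    linarith
  refine ⟨h1, ?_, ?_⟩
  · nlinarith [sq_nonneg σ]
  · calc σ ^ 2 * Real.log (1 / σ) ≤ σ ^ 2 * (1 / σ) := by gcongr
      _ = σ := by field_simp

/-- powers of `σ` -/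
theorem rpow_small (σ a : ℝ) (n : ℕ) (hσ : 0 < σ) (hσ1 : σ ≤ 1) (h : (n : ℝ) ≤ a) :
    σ ^ a ≤ σ ^ n := by
  rw [← Real.rpow_natCast σ n]
  exact Real.rpow_le_rpow_of_exponent_ge hσ hσ1 h

/-- the common final statement in dimension three -/
theorem fin (η : ℝ) (hη : 0 < η) (hη' : η ≤ 1) :
    ∃ k K : ℝ, 0 < k ∧ k ≤ 1 / 2 ∧ 1 ≤ K ∧ ∀ σ : ℝ, 0 < σ → σ ≤ k → ∃ Es : ℝ, |Es| ≤ 1 ∧
      (∀ κ : ℝ, K * (σ ^ 2 * Real.log (1 / σ)) ^ 2 ≤ κ → κ ≤ 1 →
        ∃ G : Set (Zd 3 → ℝ), MeasurableSet G ∧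
        1 - Real.exp (-(k * Real.sqrt κ / σ ^ 2)) / 2 ≤
          (Measure.infinitePi fun _ : Zd 3 => gaussianReal 0 1).real G ∧
        ∀ ω ∈ G, ∀ κ' : ℝ, κ ≤ κ' → κ' ≤ 1 → ∀ E : ℝ, 2 * (3 : ℕ) + E ≤ Es + κ' →
          ∀ u : Zd 3 → ℂ, IsGen (-1) (fun x => σ * ω x) E u → L2f u →
            ∀ x : Zd 3, ‖x‖ ≤ Real.exp (k * Real.sqrt κ / σ ^ 2) →
              ‖u x‖ ^ 2 ≤ K * κ' ^ (((3 : ℕ) : ℝ) / 2) * ∑' y, ‖u y‖ ^ 2) ∧
      (∀ (L : ℕ) [NeZero L], (L : ℝ) * (σ ^ 2 * Real.log (1 / σ)) ≤ k →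
        ∃ G : Set (T 3 L → ℝ), MeasurableSet G ∧
          1 - Real.exp (-(k / (L * σ ^ 2))) ≤
            (Measure.pi fun _ : T 3 L => gaussianReal 0 1).real G ∧
          ∀ V ∈ G, ∃ (E0 : ℝ) (ψ : T 3 L → ℝ), |E0 - Es| ≤ K / (L : ℝ) ^ 2 ∧
            (∀ x, 1 ≤ ψ x ∧ ψ x ≤ 1 + η) ∧ ∀ x, Hop σ V ψ x = E0 * ψ x) ∧
      ∀ κ : ℝ, K * (σ ^ 2 * Real.log (1 / σ)) ^ 2 ≤ κ → κ ≤ 1 →
        ∀ᵐ ω ∂(Measure.infinitePi fun _ : Zd 3 => gaussianReal 0 1),
          LO.Main.Dec 3 (-1) (fun x => σ * ω x) (Set.Iic (Es - 2 * (3 : ℕ) - κ))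
            (k * Real.sqrt κ / Real.log (2 / (κ * σ))) := by
  obtain ⟨C, hC, Hloc⟩ := Gen3.loc 3 (by norm_num) 1 one_pos
  obtain ⟨C1, hC1, Hlat⟩ := Gen3.latt 3 le_rfl
  obtain ⟨K1, hK1, Hel⟩ := LO.El.el 3 (by norm_num)
  obtain ⟨c, hc, hc16, Htor⟩ := Tor3.main η hη hη'
  have hC0 : 0 < C := by linarith
  set N : ℝ := 24 * C + 2 with hN
  have hN26 : 26 ≤ N := by linarith
  set c' : ℝ := c / N with hc'
  have hc'0 : 0 < c' := by positivity
  have hc'c : c' ≤ c / 26 := div_le_div_of_nonneg_left hc.le (by norm_num) hN26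
  set K2 : ℝ := K1 + 3 with hK2
  set a : ℝ := 9 + K2 with ha
  have ha9 : 9 ≤ a := by linarith
  set k : ℝ := min (c' / 8) (min (1 / (16 * C)) (c / (8 * (a + 1)))) with hk
  have hk0 : 0 < k := lt_min (by positivity) (lt_min (by positivity) (by positivity))
  have hkc : k ≤ c' / 8 := min_le_left _ _
  have hkC : k ≤ 1 / (16 * C) := (min_le_right _ _).trans (min_le_left _ _)
  have hka : k ≤ c / (8 * (a + 1)) := (min_le_right _ _).trans (min_le_right _ _)
  set K : ℝ := C1 + K2 + 16384 / c' ^ 2 + ((a + 1) / k) ^ 2 + (22 * (a + 1) / c) ^ 2 with hK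
  have q1 : 0 ≤ 16384 / c' ^ 2 := by positivity
  have q2 : 0 ≤ ((a + 1) / k) ^ 2 := by positivity
  have q3 : 0 ≤ (22 * (a + 1) / c) ^ 2 := by positivity
  have hKc : 16384 / c' ^ 2 ≤ K := by linarith
  have hKk : ((a + 1) / k) ^ 2 ≤ K := by linarith
  have hKa : (22 * (a + 1) / c) ^ 2 ≤ K := by linarith
  have hKC1 : C1 ≤ K := by linarith
  have hKK2 : K2 ≤ K := by linarith
  have hK1' : 1 ≤ K := by linarith
  clear_value K k a K2 c' N
  clear q1 q2 q3 hK
  refine ⟨k, K, hk0, by linarith, hK1', ?_⟩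
  intro σ hσ hσk
  have hσc8 : σ ≤ c' / 8 := hσk.trans hkc
  have hσc : σ ≤ c := by linarith
  have hσ16 : σ ≤ 1 / 128 := by linarith
  have hσ1 : σ ≤ 1 := by linarith
  obtain ⟨hlog1, hl1, hl2⟩ := ell_facts σ hσ (by linarith)
  obtain ⟨l, hl⟩ : ∃ l : ℝ, l = σ ^ 2 * Real.log (1 / σ) := ⟨_, rfl⟩
  rw [← hl] at hl1 hl2
  rw [← hl]
  have hl0 : 0 < l := lt_of_lt_of_le (by positivity) hl1
  have hlc : l ≤ c' / 8 := hl2.trans hσc8
  -- probabilities
  have hprob : ∀ (L : ℕ) [NeZero L], (L : ℝ) * l ≤ c' →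
      Real.exp (-(c / (L * σ ^ 2))) ≤ σ ^ N := by
    intro L _ hL
    have hLpos' : (0 : ℝ) < L := by exact_mod_cast Nat.pos_of_ne_zero (NeZero.ne L)
    rw [← Tor3.exp_log σ N hσ]
    apply Real.exp_le_exp.2
    rw [neg_le_neg_iff, le_div_iff₀ (by positivity)]
    have e1 : c = c' * N := by
      rw [hc']
      field_simp
    calc N * Real.log (1 / σ) * (L * σ ^ 2) = (L * l) * N := by
          rw [hl]
          ring
      _ ≤ c' * N := by gcongr
      _ = c := e1.symm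
  have hσN0 : 0 < σ ^ N := Real.rpow_pos_of_pos hσ _
  have hσN1 : σ ^ N ≤ σ ^ 1 := rpow_small σ N 1 hσ hσ1 (by push_cast; linarith)
  have hσN2 : σ ^ N < 1 / 2 := by
    rw [pow_one] at hσN1
    linarith
  -- the reference torus
  set Ls : ℕ := ⌊c' / l⌋₊ with hLs
  have hLs1 : (Ls : ℝ) ≤ c' / l := Nat.floor_le (by positivity)
  have hcl8 : 8 ≤ c' / l := by
    rw [le_div_iff₀ hl0]
    linarith
  have hLs2 : c' / (2 * l) ≤ Ls := by
    have h1 := Nat.lt_floor_add_one (c' / l)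
    rw [← hLs] at h1
    have h2 : c' / (2 * l) = c' / l / 2 := by field_simp
    rw [h2]
    linarith
  have hLs4 : (4 : ℝ) ≤ Ls := by
    have h2 : c' / (2 * l) = c' / l / 2 := by field_simp
    rw [h2] at hLs2
    linarith
  have hLs4' : 4 ≤ Ls := by exact_mod_cast hLs4
  have : NeZero Ls := ⟨by omega⟩
  have hLs0 : (0 : ℝ) < Ls := by linarith
  have hLsl : (Ls : ℝ) * l ≤ c' := by rwa [← le_div_iff₀ hl0]
  have hLsσ : (Ls : ℝ) ≤ σ ^ (-(2 : ℝ)) := by
    have h1 : σ ^ (-(2 : ℝ)) = 1 / σ ^ 2 := by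
      rw [Real.rpow_neg hσ.le, one_div]
      norm_num
    rw [h1, le_div_iff₀ (by positivity)]
    calc (Ls : ℝ) * σ ^ 2 ≤ Ls * l := by gcongr
      _ ≤ c' := hLsl
      _ ≤ 1 := by linarith
  obtain ⟨Es, hEs, Gs, hGs, hPs, hws⟩ := Htor σ hσ hσc Ls (by rw [← hl]; linarith)
  have hPs2 : 1 - σ ^ N ≤ (Measure.pi fun _ : T 3 Ls => gaussianReal 0 1).real Gs := by
    have := hprob Ls hLsl
    linarith
  have hflats : ∀ V ∈ Gs, AE.Core.FlatE σ 1 (1 / (Ls : ℝ) ^ 2) Es V := fun V hV =>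
    LO.Fin.flatE_mono σ η _ Es hη' V (hws V hV).2
  have hLs2' : 16384 * (1 / (Ls : ℝ) ^ 2) ≤ 4 * (K * l ^ 2) := by
    have h1 : (c' / (2 * l)) ^ 2 ≤ (Ls : ℝ) ^ 2 := pow_le_pow_left₀ (by positivity) hLs2 2
    have h2 : 1 / (Ls : ℝ) ^ 2 ≤ 1 / (c' / (2 * l)) ^ 2 :=
      one_div_le_one_div_of_le (by positivity) h1
    have h3 : 1 / (c' / (2 * l)) ^ 2 = 4 * l ^ 2 / c' ^ 2 := by
      field_simp
      norm_num
    rw [h3] at h2
    calc 16384 * (1 / (Ls : ℝ) ^ 2) ≤ 16384 * (4 * l ^ 2 / c' ^ 2) := by gcongr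
      _ = 4 * (16384 / c' ^ 2 * l ^ 2) := by ring
      _ ≤ 4 * (K * l ^ 2) := by gcongr
  have hinv0 : 0 < 1 / (Ls : ℝ) ^ 2 := by positivity
  clear_value Ls
  -- tori
  have H2 : ∀ (L : ℕ) [NeZero L], (L : ℝ) * l ≤ k →
      ∃ G : Set (T 3 L → ℝ), MeasurableSet G ∧
        1 - Real.exp (-(c / (L * σ ^ 2))) ≤
          (Measure.pi fun _ : T 3 L => gaussianReal 0 1).real G ∧
        ∀ V ∈ G, ∃ (E0 : ℝ) (ψ : T 3 L → ℝ), |E0 - Es| ≤ K2 / (L : ℝ) ^ 2 ∧
          (∀ x, 1 ≤ ψ x ∧ ψ x ≤ 1 + η) ∧ ∀ x, Hop σ V ψ x = E0 * ψ x := by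
    intro L _ hL
    have hLpos : 0 < L := Nat.pos_of_ne_zero (NeZero.ne L)
    have hLpos' : (0 : ℝ) < L := by exact_mod_cast hLpos
    obtain ⟨E, hE, G, hG, hP, hw⟩ := Htor σ hσ hσc L (by rw [← hl]; linarith)
    have hLL0 : L ≤ Ls := by
      have h1 : (L : ℝ) ≤ Ls := by
        refine le_trans ?_ hLs2
        rw [le_div_iff₀ (by positivity)]
        linarith
      exact_mod_cast h1
    have hPh := hprob L (by linarith)
    have hd1 := Hel (gaussianReal 0 1) σ L Ls hLL0 E Es (1 / (L : ℝ) ^ 2) (1 / (Ls : ℝ) ^ 2)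
      G Gs hG hGs (by linarith) (by linarith)
      (fun V hV => LO.Fin.flatE_mono σ η _ E hη' V (hw V hV).2) hflats
    have hL02 : 1 / (Ls : ℝ) ^ 2 ≤ 1 / (L : ℝ) ^ 2 := by
      apply one_div_le_one_div_of_le (by positivity)
      have h6 : (L : ℝ) ≤ Ls := by exact_mod_cast hLL0
      exact pow_le_pow_left₀ hLpos'.le h6 2
    refine ⟨G, hG, hP, fun V hV => ?_⟩
    obtain ⟨E0, ψ, h1, h2, h3, _⟩ := (hw V hV).2
    refine ⟨E0, ψ, ?_, h2, h3⟩
    have e1 : E0 - Es = (E0 - E) + (E - Es) := by ring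
    rw [e1]
    refine (abs_add_le _ _).trans ?_
    have e2 : K2 / (L : ℝ) ^ 2 = 1 / (L : ℝ) ^ 2 +
        (1 / (L : ℝ) ^ 2 + 1 / (L : ℝ) ^ 2 + K1 / (L : ℝ) ^ 2) := by
      rw [hK2]
      ring
    linarith
  refine ⟨Es, hEs, ?_, ?_, ?_⟩
  · -- the lattice
    intro κ hκ hκ1
    have hκ0 : 0 < κ := lt_of_lt_of_le (by positivity) hκ
    obtain ⟨s, hs⟩ : ∃ s : ℝ, s = Real.sqrt κ := ⟨_, rfl⟩
    have hs0 : 0 < s := by rw [hs]; exact Real.sqrt_pos.2 hκ0
    have hss : s ^ 2 = κ := by rw [hs]; exact Real.sq_sqrt hκ0.le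
    rw [← hs]
    have hs1 : s ≤ 1 := by
      rw [hs]
      exact Real.sqrt_le_one.2 hκ1
    have hsl : ∀ b : ℝ, 0 ≤ b → b ^ 2 ≤ K → b * l ≤ s := by
      intro b hb hbK
      have h1 : (b * l) ^ 2 ≤ s ^ 2 := by
        rw [hss, mul_pow]
        calc b ^ 2 * l ^ 2 ≤ K * l ^ 2 := by gcongr
          _ ≤ κ := hκ
      exact (pow_le_pow_iff_left₀ (by positivity) hs0.le two_ne_zero).1 h1
    set L : ℕ := ⌈a / s⌉₊ with hL
    have hLa : a ≤ L * s := by
      have := Nat.le_ceil (a / s)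
      rw [← hL, div_le_iff₀ hs0] at this
      exact this
    have hLa1 : (L : ℝ) * s ≤ a + 1 := by
      have h1 := Nat.ceil_lt_add_one (show 0 ≤ a / s by positivity)
      rw [← hL] at h1
      have h2 : L * s ≤ (a / s + 1) * s := mul_le_mul_of_nonneg_right h1.le hs0.le
      have h3 : (a / s + 1) * s = a + s := by field_simp
      linarith
    clear_value L
    have hL0 : (0 : ℝ) < L := by
      by_contra hcon
      have : L * s ≤ 0 := mul_nonpos_of_nonpos_of_nonneg (not_lt.1 hcon) hs0.le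
      linarith
    have : NeZero L := ⟨by
      intro h
      rw [h] at hL0
      simp at hL0⟩
    have hLk : (L : ℝ) * l ≤ k := by
      have h1 := hsl ((a + 1) / k) (by positivity) hKk
      have h2 : (a + 1) * l ≤ k * s := by
        have h3 : (a + 1) / k * l = ((a + 1) * l) / k := by ring
        rw [h3, div_le_iff₀ hk0] at h1
        linarith
      have h3 : (L * s) * l ≤ (a + 1) * l := mul_le_mul_of_nonneg_right hLa1 hl0.le
      have h4 : (L * l) * s ≤ k * s := by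
        calc (L * l) * s = (L * s) * l := by ring
          _ ≤ (a + 1) * l := h3
          _ ≤ k * s := h2
      exact le_of_mul_le_mul_right h4 hs0
    obtain ⟨G1, hG1, hP1, hw1⟩ := H2 L hLk
    have hρ : 1 ≤ Real.exp (k * s / σ ^ 2) := Real.one_le_exp (by positivity)
    obtain ⟨G, hG, hP, hlat⟩ := Hlat (gaussianReal 0 1) σ Es (K2 / (L : ℝ) ^ 2)
      (Real.exp (-(c / (L * σ ^ 2)))) (Real.exp (k * s / σ ^ 2)) L G1 hG1 hP1
      (Real.exp_pos _).le hρ (fun V hV => by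
        obtain ⟨E0, ψ, h1, h2, h3⟩ := hw1 V hV
        exact ⟨E0, ψ, h1, fun x => ⟨(h2 x).1, by linarith [(h2 x).2]⟩, h3⟩)
    refine ⟨G, hG, ?_, ?_⟩
    · refine le_trans ?_ hP
      have hlt : 22 * (a + 1) / c ≤ s / σ ^ 2 := by
        have h1 := hsl (22 * (a + 1) / c) (by positivity) hKa
        rw [le_div_iff₀ (by positivity)]
        calc 22 * (a + 1) / c * σ ^ 2 ≤ 22 * (a + 1) / c * l := by gcongr
          _ ≤ s := h1
      obtain ⟨t, ht⟩ : ∃ t : ℝ, t = s / σ ^ 2 := ⟨_, rfl⟩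
      rw [← ht] at hlt
      have ht0 : 0 < t := by rw [ht]; positivity
      have e0 : k * s / σ ^ 2 = k * t := by rw [ht]; ring
      have e1 : c / (a + 1) * t ≤ c / (L * σ ^ 2) := by
        rw [ht, div_mul_div_comm, div_le_div_iff₀ (by positivity) (by positivity)]
        calc c * s * (L * σ ^ 2) = (L * s) * (c * σ ^ 2) := by ring
          _ ≤ (a + 1) * (c * σ ^ 2) := by gcongr
          _ = c * ((a + 1) * σ ^ 2) := by ring
      have e2 : 11 ≤ (c / (a + 1) - 4 * k) * t := by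
        have h1 : c / (2 * (a + 1)) ≤ c / (a + 1) - 4 * k := by
          have h2 : c / (8 * (a + 1)) = c / (a + 1) / 8 := by field_simp
          have h3 : c / (2 * (a + 1)) = c / (a + 1) / 2 := by field_simp
          rw [h2] at hka
          rw [h3]
          linarith
        calc (11 : ℝ) = c / (2 * (a + 1)) * (22 * (a + 1) / c) := by
              field_simp
              norm_num
          _ ≤ c / (2 * (a + 1)) * t := by gcongr
          _ ≤ (c / (a + 1) - 4 * k) * t := by gcongr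
      have e3 : (54 : ℝ) ≤ Real.exp ((c / (a + 1) - 4 * k) * t) := by
        have h1 := LO.Fin.exp_ge_sq _ (show 0 ≤ (c / (a + 1) - 4 * k) * t by linarith)
        have h2 : (11 : ℝ) ^ 2 ≤ ((c / (a + 1) - 4 * k) * t) ^ 2 :=
          pow_le_pow_left₀ (by norm_num) e2 2
        linarith
      have e4 : (3 * Real.exp (k * s / σ ^ 2)) ^ 3 * Real.exp (-(c / (L * σ ^ 2))) ≤
          Real.exp (-(k * s / σ ^ 2)) / 2 := by
        rw [e0]
        have h1 : Real.exp (-(c / (L * σ ^ 2))) ≤ Real.exp (-(c / (a + 1) * t)) :=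
          Real.exp_le_exp.2 (by linarith)
        have h2 : Real.exp (k * t) ^ 3 = Real.exp (3 * (k * t)) := by
          rw [← Real.exp_nat_mul]
          norm_num
        have h3 : Real.exp (3 * (k * t)) * Real.exp (-(c / (a + 1) * t)) *
            Real.exp ((c / (a + 1) - 4 * k) * t) = Real.exp (-(k * t)) := by
          rw [← Real.exp_add, ← Real.exp_add]
          congr 1
          ring
        have h4 : 0 < Real.exp (3 * (k * t)) * Real.exp (-(c / (a + 1) * t)) := by positivity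
        have h5 : 54 * (Real.exp (3 * (k * t)) * Real.exp (-(c / (a + 1) * t))) ≤
            Real.exp (-(k * t)) := by
          rw [← h3, mul_comm (54 : ℝ)]
          exact mul_le_mul_of_nonneg_left e3 h4.le
        calc (3 * Real.exp (k * t)) ^ 3 * Real.exp (-(c / (L * σ ^ 2)))
            = 27 * (Real.exp (3 * (k * t)) * Real.exp (-(c / (L * σ ^ 2)))) := by
              rw [mul_pow, h2]
              ring
          _ ≤ 27 * (Real.exp (3 * (k * t)) * Real.exp (-(c / (a + 1) * t))) := by gcongr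
          _ ≤ Real.exp (-(k * t)) / 2 := by linarith
      linarith
    · intro ω hω κ' hκ' hκ'1 E hE u hu hL2 x hx
      have hκ'0 : 0 < κ' := by linarith
      have h1 : K2 / (L : ℝ) ^ 2 ≤ κ' := by
        rw [div_le_iff₀ (by positivity)]
        have h2 : a ^ 2 ≤ (L * s) ^ 2 := pow_le_pow_left₀ (by linarith) hLa 2
        rw [mul_pow, hss] at h2
        have h3 : K2 ≤ a ^ 2 := by
          calc K2 ≤ a := by linarith
            _ = a ^ 1 := (pow_one a).symm
            _ ≤ a ^ 2 := pow_le_pow_right₀ (by linarith) (by norm_num)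
        calc K2 ≤ (L : ℝ) ^ 2 * κ := h3.trans h2
          _ ≤ (L : ℝ) ^ 2 * κ' := by gcongr
          _ = κ' * (L : ℝ) ^ 2 := by ring
      have h8 : 8 < L * Real.sqrt κ' := by
        have h9 : s ≤ Real.sqrt κ' := by
          rw [hs]
          exact Real.sqrt_le_sqrt hκ'
        have h10 : L * s ≤ L * Real.sqrt κ' := by gcongr
        linarith
      have h2 := hlat ω hω κ' h1 hκ'0 hκ'1 h8 E hE u hu hL2 x hx
      refine h2.trans ?_
      apply mul_le_mul_of_nonneg_right _ (tsum_nonneg fun y => by positivity)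
      exact mul_le_mul_of_nonneg_right hKC1 (Real.rpow_nonneg hκ'0.le _)
  · intro L _ hL
    have hLpos' : (0 : ℝ) < L := by exact_mod_cast Nat.pos_of_ne_zero (NeZero.ne L)
    obtain ⟨G, hG, hP, hw⟩ := H2 L hL
    refine ⟨G, hG, ?_, fun V hV => ?_⟩
    · have h1 : Real.exp (-(c / (L * σ ^ 2))) ≤ Real.exp (-(k / (L * σ ^ 2))) := by
        apply Real.exp_le_exp.2
        rw [neg_le_neg_iff]
        apply div_le_div_of_nonneg_right _ (by positivity)
        linarith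
      linarith
    · obtain ⟨E0, ψ, h1, h2, h3⟩ := hw V hV
      refine ⟨E0, ψ, h1.trans ?_, h2, h3⟩
      exact div_le_div_of_nonneg_right hKK2 (by positivity)
  · -- localization
    intro κ hκ hκ1
    have hκ0 : 0 < κ := lt_of_lt_of_le (by positivity) hκ
    have hT : TorusBound 3 Ls (gaussianReal 0 1) σ (Es - 1 / (Ls : ℝ) ^ 2) (σ ^ N) :=
      LO.Main.torusBound_of _ σ 1 _ Es _ Gs hGs hPs2 hflats
    have h1 : 16384 * (1 / (Ls : ℝ) ^ 2) ≤ 4 * κ := by linarith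
    have hσ4 : σ ^ 4 ≤ κ := by
      calc σ ^ 4 = 1 * (σ ^ 2) ^ 2 := by ring
        _ ≤ K * l ^ 2 := by gcongr
        _ ≤ κ := hκ
    have hb := Hloc (gaussianReal 0 1) LO.Lw.reg_gauss σ hσ hσ1 Ls (Es - 1 / (Ls : ℝ) ^ 2)
      (σ ^ N) hLs4' hσN0.le hT (κ / 2) (by positivity) (by linarith) (by
        have e1 : 512 * ((3 : ℕ) : ℝ) / (Ls : ℝ) ^ 2 = 1536 * (1 / (Ls : ℝ) ^ 2) := by
          push_cast
          ring
        rw [e1]
        linarith) (by
        set X : ℝ := (4 / (κ / 2 * σ)) ^ C with hX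
        have hX0 : 0 < X := Real.rpow_pos_of_pos (by positivity) _
        have hbase : 4 / (κ / 2 * σ) ≤ σ ^ (-(6 : ℝ)) := by
          have e1 : σ ^ (-(6 : ℝ)) = 1 / σ ^ 6 := by
            rw [Real.rpow_neg hσ.le, one_div]
            norm_num
          rw [e1, div_le_div_iff₀ (by positivity) (by positivity)]
          have e2 : σ ^ 5 ≤ κ * σ := by
            calc σ ^ 5 = σ ^ 4 * σ := by ring
              _ ≤ κ * σ := by gcongr
          have e3 : 8 * σ ^ 6 ≤ σ ^ 5 := by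
            calc 8 * σ ^ 6 = (8 * σ) * σ ^ 5 := by ring
              _ ≤ 1 * σ ^ 5 := mul_le_mul_of_nonneg_right (by linarith) (by positivity)
              _ = σ ^ 5 := one_mul _
          linarith
        have hXY : X ≤ σ ^ (-(6 * C)) := by
          calc X ≤ (σ ^ (-(6 : ℝ))) ^ C := Real.rpow_le_rpow (by positivity) hbase hC0.le
            _ = σ ^ (-(6 * C)) := by
                rw [← Real.rpow_mul hσ.le]
                congr 1
                ring
        set Y : ℝ := σ ^ (-(6 * C)) with hY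
        have hY1 : 1 ≤ Y := Real.one_le_rpow_of_pos_of_le_one_of_nonpos hσ hσ1 (by linarith)
        have hLsY : (Ls : ℝ) ≤ Y := by
          refine hLsσ.trans ?_
          exact Real.rpow_le_rpow_of_exponent_ge hσ hσ1 (by linarith)
        have hY4 : Y ^ 4 * σ ^ N ≤ σ ^ 1 := by
          have e1 : Y ^ 4 = σ ^ (-(24 * C)) := by
            rw [hY, ← Real.rpow_natCast, ← Real.rpow_mul hσ.le]
            congr 1
            push_cast
            ring
          rw [e1, ← Real.rpow_add hσ]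
          refine rpow_small σ _ 1 hσ hσ1 ?_
          rw [hN]
          push_cast
          linarith
        calc ((Ls : ℝ) + X + 1) ^ 3 * X * σ ^ N ≤ (Y + Y + Y) ^ 3 * Y * σ ^ N := by gcongr
          _ = 27 * (Y ^ 4 * σ ^ N) := by ring
          _ ≤ 27 * σ ^ 1 := by gcongr
          _ ≤ 1 := by
              rw [pow_one]
              linarith)
    filter_upwards [hb] with ω hω
    refine LO.Main.dec_mono _ _ _ _ _ _ hω ?_ ?_
    · apply Set.Iic_subset_Iic.2
      linarith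
    · have hκσ1 : κ * σ ≤ 1 := mul_le_one₀ hκ1 hσ.le hσ1
      have hbase : 2 ≤ 2 / (κ * σ) := by
        rw [le_div_iff₀ (by positivity)]
        linarith
      have hlog : 0 < Real.log (2 / (κ * σ)) := Real.log_pos (by linarith)
      have e1 : 2 / (κ / 2 * σ) = 2 * (2 / (κ * σ)) := by
        field_simp
      have hX2 : Real.log (2 / (κ / 2 * σ)) ≤ 2 * Real.log (2 / (κ * σ)) := by
        rw [e1, Real.log_mul (by norm_num) (by positivity)]
        have e2 := Real.log_le_log (by norm_num) hbase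
        linarith
      have hX2pos : 0 < Real.log (2 / (κ / 2 * σ)) := by
        apply Real.log_pos
        rw [e1]
        linarith
      have hsq : Real.sqrt κ / 2 ≤ Real.sqrt (κ / 2) := by
        rw [Real.le_sqrt (by positivity) (by positivity), div_pow, Real.sq_sqrt hκ0.le]
        linarith
      rw [div_le_div_iff₀ (by positivity) (by positivity)]
      have h0 := Real.sqrt_nonneg κ
      have hkC' : k * (16 * C) ≤ 1 := by
        rwa [le_div_iff₀ (by positivity)] at hkC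
      calc k * Real.sqrt κ * (4 * C * Real.log (2 / (κ / 2 * σ)))
          ≤ k * Real.sqrt κ * (4 * C * (2 * Real.log (2 / (κ * σ)))) := by gcongr
        _ = (k * (16 * C)) * (Real.sqrt κ / 2) * Real.log (2 / (κ * σ)) := by ring
        _ ≤ 1 * (Real.sqrt κ / 2) * Real.log (2 / (κ * σ)) := by gcongr
        _ ≤ Real.sqrt (κ / 2) * Real.log (2 / (κ * σ)) := by
            rw [one_mul]
            exact mul_le_mul_of_nonneg_right hsq hlog.le

end Pool.Agent.W788.Fin3
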