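import Pool.Agent.H4R2.LO.El

/-! A form bound on a small torus with high probability gives a form bound on a large torus. -/

set_option autoImplicit false

open scoped BigOperators ENNReal
open MeasureTheory

namespace Pool.Agent.W788.Ims

open Pool.Agent.H4R2 Pool.Agent.H4R2.LO Pool.Agent.H4R2.LO.El
open Pool.Agent.H4R2.AE (Hop)

variable {d L L0 : ℕ} [NeZero L] [NeZero L0]

/-- sums of shifted products -/
theorem shift_sum (X : T d L0 → ℝ) (e : T d L0) (y : T d L0) :
    ∑ a, X (y - a) * X (y - a + e) = ∑ z, X z * X (z + e) :=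
  Equiv.sum_comp (Equiv.subLeft y) (fun z => X z * X (z + e))

theorem shift_sum' (X : T d L0 → ℝ) (e : T d L0) (y : T d L0) :
    ∑ a, X (y - a) * X (y - a - e) = ∑ z, X z * X (z + e) := by
  have h1 : ∑ a, X (y - a) * X (y - a - e) = ∑ z, X z * X (z - e) :=
    Equiv.sum_comp (Equiv.subLeft y) (fun z => X z * X (z - e))
  rw [h1, ← Equiv.sum_comp (Equiv.addRight e) (fun z => X z * X (z - e))]
  refine Finset.sum_congr rfl fun z _ => ?_
  simp only [Equiv.coe_addRight, add_sub_cancel_right]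
  ring

theorem sum_sq_shift (f : T d L0 → ℝ) (e : T d L0) : ∑ y, f (y + e) ^ 2 = ∑ y, f y ^ 2 :=
  Equiv.sum_comp (Equiv.addRight e) (fun y => f y ^ 2)

theorem corr_eq (X : T d L0 → ℝ) (e : T d L0) :
    ∑ z, X z * X (z + e) = ∑ z, X z ^ 2 - (∑ z, (X z - X (z + e)) ^ 2) / 2 := by
  have h1 := sum_sq_shift X e
  have h2 : ∑ z, (X z - X (z + e)) ^ 2 = ∑ z, X z ^ 2 + ∑ z, X (z + e) ^ 2 -
      2 * ∑ z, X z * X (z + e) := by
    rw [Finset.mul_sum, ← Finset.sum_add_distrib, ← Finset.sum_sub_distrib]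
    exact Finset.sum_congr rfl fun z _ => by ring
  rw [h2, h1]
  ring

theorem corr_le (f : T d L0 → ℝ) (e : T d L0) : ∑ y, f y * f (y + e) ≤ ∑ y, f y ^ 2 := by
  rw [corr_eq]
  have : 0 ≤ ∑ z, (f z - f (z + e)) ^ 2 := Finset.sum_nonneg fun z _ => sq_nonneg _
  linarith

/-- the localisation formula, as an inequality -/
theorem ims (lam : ℝ) (V f X : T d L0 → ℝ) :
    ∑ a, ∑ y, (X (y - a) * f y) * Hop lam V (fun y => X (y - a) * f y) y ≤
      (∑ z, X z ^ 2) * ∑ y, f y * Hop lam V f y + D X * ∑ y, f y ^ 2 := by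
  classical
  obtain ⟨S, hS⟩ : ∃ S : ℝ, S = ∑ z, X z ^ 2 := ⟨_, rfl⟩
  obtain ⟨c, hc⟩ : ∃ c : Fin d → ℝ, c = fun i => ∑ z, X z * X (z + Pi.single i 1) := ⟨_, rfl⟩
  rw [← hS, Finset.sum_comm]
  have h1 : ∀ y, ∑ a, (X (y - a) * f y) * Hop lam V (fun y => X (y - a) * f y) y =
      ∑ i : Fin d, (2 * S * f y ^ 2 - c i * (f y * f (y + Pi.single i 1)) -
        c i * (f y * f (y - Pi.single i 1))) + S * (lam * V y * f y ^ 2) := by
    intro y
    have e1 : ∀ a, (X (y - a) * f y) * Hop lam V (fun y => X (y - a) * f y) y =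
        ∑ i : Fin d, (2 * f y ^ 2 * X (y - a) ^ 2 -
          (f y * f (y + Pi.single i 1)) * (X (y - a) * X (y - a + Pi.single i 1)) -
          (f y * f (y - Pi.single i 1)) * (X (y - a) * X (y - a - Pi.single i 1))) +
        (lam * V y * f y ^ 2) * X (y - a) ^ 2 := by
      intro a
      unfold Hop
      rw [mul_add, Finset.mul_sum]
      congr 1
      · refine Finset.sum_congr rfl fun i _ => ?_
        have e2 : y + Pi.single i 1 - a = y - a + Pi.single i 1 := by abel
        have e3 : y - Pi.single i 1 - a = y - a - Pi.single i 1 := by abel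
        simp only [e2, e3]
        ring
      · ring
    rw [Finset.sum_congr rfl fun a _ => e1 a, Finset.sum_add_distrib, Finset.sum_comm]
    have hsq : ∑ a, X (y - a) ^ 2 = S := by
      rw [hS]
      exact Equiv.sum_comp (Equiv.subLeft y) (fun z => X z ^ 2)
    congr 1
    · refine Finset.sum_congr rfl fun i _ => ?_
      rw [Finset.sum_sub_distrib, Finset.sum_sub_distrib, ← Finset.mul_sum, ← Finset.mul_sum,
        ← Finset.mul_sum, hsq, shift_sum, shift_sum']
      simp only [hc]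
      ring
    · rw [← Finset.mul_sum, hsq]
      ring
  rw [Finset.sum_congr rfl fun y _ => h1 y]
  have hform : ∑ y, f y * Hop lam V f y = ∑ y, (∑ i : Fin d, (2 * f y ^ 2 -
      (f y * f (y + Pi.single i 1)) - (f y * f (y - Pi.single i 1))) +
        lam * V y * f y ^ 2) := by
    refine Finset.sum_congr rfl fun y _ => ?_
    unfold Hop
    rw [mul_add, Finset.mul_sum]
    congr 1
    · refine Finset.sum_congr rfl fun i _ => ?_
      ring
    · ring
  rw [hform]
  have hci : ∀ i, c i = S - (∑ z, (X z - X (z + Pi.single i 1)) ^ 2) / 2 := fun i => by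
    rw [hc, hS]
    exact corr_eq X _
  -- compare
  have h2 : ∀ y, ∑ i : Fin d, (2 * S * f y ^ 2 - c i * (f y * f (y + Pi.single i 1)) -
        c i * (f y * f (y - Pi.single i 1))) + S * (lam * V y * f y ^ 2) =
      S * (∑ i : Fin d, (2 * f y ^ 2 -
      (f y * f (y + Pi.single i 1)) - (f y * f (y - Pi.single i 1))) +
        lam * V y * f y ^ 2) + ∑ i : Fin d, (∑ z, (X z - X (z + Pi.single i 1)) ^ 2) / 2 *
          (f y * f (y + Pi.single i 1) + f y * f (y - Pi.single i 1)) := by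
    intro y
    rw [mul_add, add_right_comm, Finset.mul_sum, ← Finset.sum_add_distrib]
    congr 1
    refine Finset.sum_congr rfl fun i _ => ?_
    rw [hci i]
    ring
  rw [Finset.sum_congr rfl fun y _ => h2 y, Finset.sum_add_distrib, ← Finset.mul_sum]
  have h3 : ∑ y, ∑ i : Fin d, (∑ z, (X z - X (z + Pi.single i 1)) ^ 2) / 2 *
      (f y * f (y + Pi.single i 1) + f y * f (y - Pi.single i 1)) ≤ D X * ∑ y, f y ^ 2 := by
    rw [Finset.sum_comm]
    have hD : D X = ∑ i : Fin d, ∑ z, (X z - X (z + Pi.single i 1)) ^ 2 := by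
      unfold D
      rw [Finset.sum_comm]
    rw [hD, Finset.sum_mul]
    refine Finset.sum_le_sum fun i _ => ?_
    rw [← Finset.mul_sum, Finset.sum_add_distrib]
    have h4 := corr_le f (Pi.single i 1)
    have h5 : ∑ y, f y * f (y - Pi.single i 1) = ∑ y, f y * f (y + Pi.single i 1) := by
      have h6 := Equiv.sum_comp (Equiv.addRight (Pi.single i (1 : ZMod L0) : T d L0))
        (fun y : T d L0 => f y * f (y - Pi.single i 1))
      refine h6.symm.trans (Finset.sum_congr rfl fun y _ => ?_)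
      simp only [Equiv.coe_addRight, add_sub_cancel_right]
      ring
    rw [h5]
    have h6 : 0 ≤ ∑ z, (X z - X (z + Pi.single i 1)) ^ 2 := Finset.sum_nonneg fun z _ => sq_nonneg _
    nlinarith
  linarith

omit [NeZero L0] in
/-- translation of the operator -/
theorem hop_shift (lam : ℝ) (V g : T d L0 → ℝ) (a y : T d L0) :
    Hop lam V g (y + a) = Hop lam (fun z => V (z + a)) (fun z => g (z + a)) y := by
  unfold Hop
  congr 1
  refine Finset.sum_congr rfl fun i _ => ?_
  have e1 : y + a + Pi.single i 1 = y + Pi.single i 1 + a := by abel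
  have e2 : y + a - Pi.single i 1 = y - Pi.single i 1 + a := by abel
  rw [e1, e2]

/-- lower bound of one piece -/
theorem piece (hL : L ≤ L0) (lam E1 : ℝ) (V f : T d L0 → ℝ) (χ : T d L → ℝ) (hχ : Int' χ)
    (a : T d L0)
    (h : ∀ g : T d L → ℝ, E1 * ∑ x, g x ^ 2 ≤
      ∑ x, g x * Hop lam (fun x => V (io d L L0 x + a)) g x) :
    E1 * ∑ y, (tp L0 χ (y - a) * f y) ^ 2 ≤
      ∑ y, (tp L0 χ (y - a) * f y) * Hop lam V (fun y => tp L0 χ (y - a) * f y) y := by
  set g : T d L → ℝ := fun x => χ x * f (io d L L0 x + a) with hg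
  have hgi : Int' g := fun x hx => hχ x fun hc => hx (by rw [hg]; simp [hc])
  have hgt : tp L0 g = fun y => tp L0 χ y * f (y + a) := by
    funext y
    by_cases hy : y ∈ Set.range (io d L L0)
    · obtain ⟨x, rfl⟩ := hy
      rw [tp_io hL, tp_io hL]
    · rw [tp_out g y hy, tp_out χ y hy, zero_mul]
  have h1 := h g
  have h2 := tp_hop hL lam (fun y => V (y + a)) g hgi
  have h3 := tp_sq hL g
  rw [← h2, ← h3, hgt] at h1
  have e1 : ∑ y, (tp L0 χ (y - a) * f y) ^ 2 = ∑ y, (tp L0 χ y * f (y + a)) ^ 2 := by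
    rw [← Equiv.sum_comp (Equiv.addRight a) (fun y => (tp L0 χ (y - a) * f y) ^ 2)]
    refine Finset.sum_congr rfl fun y _ => ?_
    simp only [Equiv.coe_addRight, add_sub_cancel_right]
  have e2 : ∑ y, (tp L0 χ (y - a) * f y) * Hop lam V (fun y => tp L0 χ (y - a) * f y) y =
      ∑ y, tp L0 χ y * f (y + a) * Hop lam (fun y => V (y + a))
        (fun y => tp L0 χ y * f (y + a)) y := by
    rw [← Equiv.sum_comp (Equiv.addRight a) (fun y => (tp L0 χ (y - a) * f y) *
      Hop lam V (fun y => tp L0 χ (y - a) * f y) y)]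
    refine Finset.sum_congr rfl fun y _ => ?_
    simp only [Equiv.coe_addRight, add_sub_cancel_right]
    rw [hop_shift]
    simp only [add_sub_cancel_right]
  rw [e1, e2]
  exact h1

/-- deterministic statement -/
theorem det (hd : 1 ≤ d) (hL4 : 4 ≤ L) (hL : L ≤ L0) (lam E1 : ℝ) (V : T d L0 → ℝ)
    (h : ∀ a : T d L0, ∀ g : T d L → ℝ, E1 * ∑ x, g x ^ 2 ≤
      ∑ x, g x * Hop lam (fun x => V (io d L L0 x + a)) g x) (f : T d L0 → ℝ) :
    (E1 - 256 * d / (L : ℝ) ^ 2) * ∑ y, f y ^ 2 ≤ ∑ y, f y * Hop lam V f y := by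
  have hLpos : (0 : ℝ) < L := by exact_mod_cast Nat.pos_of_ne_zero (NeZero.ne L)
  set X : T d L0 → ℝ := tp L0 (ch d L) with hX
  have h1 : ∀ a : T d L0, E1 * ∑ y, (X (y - a) * f y) ^ 2 ≤
      ∑ y, (X (y - a) * f y) * Hop lam V (fun y => X (y - a) * f y) y :=
    fun a => piece hL lam E1 V f (ch d L) ch_int a (h a)
  have h2 := Finset.sum_le_sum fun a (_ : a ∈ (Finset.univ : Finset (T d L0))) => h1 a
  have h3 := ims lam V f X
  have h4 : ∑ a : T d L0, E1 * ∑ y, (X (y - a) * f y) ^ 2 =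
      E1 * ((∑ z, X z ^ 2) * ∑ y, f y ^ 2) := by
    rw [← Finset.mul_sum]
    congr 1
    rw [Finset.sum_comm, Finset.mul_sum]
    refine Finset.sum_congr rfl fun y _ => ?_
    have e1 : ∑ z : T d L0, X z ^ 2 = ∑ a : T d L0, X (y - a) ^ 2 :=
      (Equiv.sum_comp (Equiv.subLeft y) (fun z : T d L0 => X z ^ 2)).symm
    rw [e1, Finset.sum_mul]
    refine Finset.sum_congr rfl fun a _ => ?_
    ring
  rw [h4] at h2
  have hS : ∑ z, X z ^ 2 = SS L ^ d := by
    rw [hX, tp_sq hL, ch_sq]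
  have hDX : D X = D (ch d L) := by
    rw [hX, tp_D hL _ ch_int]
  rw [hS] at h2 h3
  rw [hDX] at h3
  have a2 := ch_D (d := d) (L := L) hd
  have a3 := SS_ge (L := L) hL4
  have hSpos : 0 < SS L := lt_of_lt_of_le (by positivity) a3
  have a4 : SS L ^ d = SS L * SS L ^ (d - 1) := by
    rw [← pow_succ']
    congr 1
    omega
  have hP : 0 < SS L ^ (d - 1) := by positivity
  have hN : 0 ≤ ∑ y, f y ^ 2 := Finset.sum_nonneg fun y _ => sq_nonneg _
  have hdL : (d : ℝ) * L ≤ (256 * d / (L : ℝ) ^ 2) * SS L := by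
    have e1 : (d : ℝ) * L = (256 * d / (L : ℝ) ^ 2) * ((L : ℝ) ^ 3 / 256) := by
      field_simp
    rw [e1]
    exact mul_le_mul_of_nonneg_left a3 (by positivity)
  have a5 : D (ch d L) ≤ (256 * d / (L : ℝ) ^ 2) * SS L ^ d := by
    calc D (ch d L) ≤ d * (L * SS L ^ (d - 1)) := a2
      _ = (d * L) * SS L ^ (d - 1) := by ring
      _ ≤ ((256 * d / (L : ℝ) ^ 2) * SS L) * SS L ^ (d - 1) :=
          mul_le_mul_of_nonneg_right hdL hP.le
      _ = _ := by rw [a4]; ring
  have a6 : D (ch d L) * ∑ y, f y ^ 2 ≤ (256 * d / (L : ℝ) ^ 2) * SS L ^ d * ∑ y, f y ^ 2 :=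
    mul_le_mul_of_nonneg_right a5 hN
  have hSd : 0 < SS L ^ d := by positivity
  have a7 : SS L ^ d * ((E1 - 256 * d / (L : ℝ) ^ 2) * ∑ y, f y ^ 2) ≤
      SS L ^ d * ∑ y, f y * Hop lam V f y := by
    have : SS L ^ d * ((E1 - 256 * d / (L : ℝ) ^ 2) * ∑ y, f y ^ 2) =
      E1 * (SS L ^ d * ∑ y, f y ^ 2) - (256 * d / (L : ℝ) ^ 2) * SS L ^ d * ∑ y, f y ^ 2 := by ring
    rw [this]
    linarith
  exact le_of_mul_le_mul_left a7 hSd

/-- **large torus bound from small torus bound** -/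
theorem torusBound (hd : 1 ≤ d) (hL4 : 4 ≤ L) (hL : L ≤ L0) (μ : Measure ℝ)
    [IsProbabilityMeasure μ] (lam E1 ε : ℝ) (h : TorusBound d L μ lam E1 ε) :
    TorusBound d L0 μ lam (E1 - 256 * d / (L : ℝ) ^ 2) ((L0 : ℝ) ^ d * ε) := by
  obtain ⟨G, hG, hP, hb⟩ := h
  set R : T d L0 → (T d L0 → ℝ) → (T d L → ℝ) := fun a V x => V (io d L L0 x + a) with hR
  have hRm : ∀ a, Measurable (R a) := fun a => measurable_pi_lambda _ fun x => measurable_pi_apply _
  have hinj : ∀ a : T d L0, Function.Injective (fun x : T d L => io d L L0 x + a) := by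
    intro a x y hxy
    exact io_inj hL (add_right_cancel hxy)
  have hPa : ∀ a, (Measure.pi fun _ : T d L0 => μ).real (R a ⁻¹' G)ᶜ ≤ ε := by
    intro a
    have hmap := map_pi μ (fun x : T d L => io d L L0 x + a) (hinj a)
    have h1 : (Measure.pi fun _ : T d L0 => μ).real (R a ⁻¹' G) =
        (Measure.pi fun _ : T d L => μ).real G := by
      rw [← hmap, map_measureReal_apply (hRm a) hG]
    have h2 := probReal_add_probReal_compl (μ := Measure.pi fun _ : T d L0 => μ) (hRm a hG)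
    linarith
  refine ⟨⋂ a, R a ⁻¹' G, MeasurableSet.iInter fun a => hRm a hG, ?_, ?_⟩
  · have h2 := probReal_add_probReal_compl (μ := Measure.pi fun _ : T d L0 => μ)
      (MeasurableSet.iInter fun a => hRm a hG)
    have h3 : (Measure.pi fun _ : T d L0 => μ).real (⋂ a, R a ⁻¹' G)ᶜ ≤ (L0 : ℝ) ^ d * ε := by
      rw [Set.compl_iInter]
      have h4 := measureReal_iUnion_fintype_le (μ := Measure.pi fun _ : T d L0 => μ)
        (fun a => (R a ⁻¹' G)ᶜ)
      refine h4.trans ((Finset.sum_le_sum fun a _ => hPa a).trans (le_of_eq ?_))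
      rw [Finset.sum_const, Finset.card_univ, nsmul_eq_mul]
      congr 1
      simp [T, Fintype.card_pi, ZMod.card]
    linarith
  · intro V hV f
    have hV' : ∀ a, R a V ∈ G := fun a => Set.mem_iInter.1 hV a
    have h5 := det hd hL4 hL lam E1 V (fun a g => by
      have := hb (R a V) (hV' a) g
      exact this) f
    exact h5

end Pool.Agent.W788.Ims
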