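import Pool.Agent.W788.Trans3
import Pool.Agent.W788.Ims
import Pool.Agent.H4R2.LO.Fin

/-! Two general steps: spread-out eigenfunctions at all sites of a box, and localization from a form
bound on a torus of moderate size. -/

set_option autoImplicit false

open scoped BigOperators ENNReal
open MeasureTheory

namespace Pool.Agent.W788.Gen3

open Pool.Agent.H4R2
open Pool.Agent.H4R2.AE (T LapW Hop)
open Pool.Agent.H4R2.LO (Zd Hg L2f IsGen Reg TorusBound)
open Pool.Agent.H695R3.AN (lf lf_inj rpow_half)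

theorem law_shift {d L : ℕ} [NeZero L] (μ : Measure ℝ) [IsProbabilityMeasure μ] (a : Zd d) :
    (Measure.infinitePi fun _ : Zd d => μ).map (fun ω (y : T d L) => ω (lf y + a)) =
      Measure.pi fun _ : T d L => μ := by
  classical
  set Λ : Finset (Zd d) := Finset.univ.image (fun y : T d L => lf y + a) with hΛ
  set e : T d L → Λ := fun y => ⟨lf y + a, Finset.mem_image_of_mem _ (Finset.mem_univ y)⟩ with he
  have hinj : Function.Injective e := by
    intro x y h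
    exact lf_inj (add_right_cancel (congrArg Subtype.val h))
  have h1 := LO.Em.rs_map (d := d) μ Λ
  have h2 := LO.Em.em_pi_map μ e hinj
  rw [← h1, Measure.map_map] at h2
  · exact h2
  · exact measurable_pi_iff.2 fun a => measurable_pi_apply _
  · exact measurable_pi_iff.2 fun a => measurable_pi_apply _

/-- translated eigenfunctions -/
theorem gen_shift {d : ℕ} (τ lam E : ℝ) (ω : Zd d → ℝ) (u : Zd d → ℂ) (a : Zd d)
    (h : IsGen τ (fun x => lam * ω x) E u) :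
    IsGen τ (fun x => lam * ω (x + a)) E (fun x => u (x + a)) := by
  intro x
  have h1 := h (x + a)
  unfold Hg at h1 ⊢
  have h2 : ∀ i : Fin d, x + Pi.single i 1 + a = x + a + Pi.single i 1 := fun i => by abel
  have h3 : ∀ i : Fin d, x - Pi.single i 1 + a = x + a - Pi.single i 1 := fun i => by abel
  simp only [h2, h3]
  exact h1

theorem l2_shift {d : ℕ} (u : Zd d → ℂ) (a : Zd d) (h : L2f u) : L2f (fun x => u (x + a)) := by
  have h0 : Summable (fun x => ‖u x‖ ^ 2) := h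
  have h1 : Summable ((fun x => ‖u x‖ ^ 2) ∘ (Equiv.addRight a)) :=
    (Equiv.addRight a).summable_iff.2 h0
  exact h1

theorem tsum_shift {d : ℕ} (u : Zd d → ℂ) (a : Zd d) :
    ∑' x, ‖u (x + a)‖ ^ 2 = ∑' x, ‖u x‖ ^ 2 :=
  (Equiv.addRight a).tsum_eq (fun x => ‖u x‖ ^ 2)

theorem norm_zd {d : ℕ} (x : Zd d) (ρ : ℝ) (h : ‖x‖ ≤ ρ) : x ∈ LO.bx (0 : Zd d) ⌊ρ⌋₊ := by
  rw [LO.Em.mem_bx]
  apply Nat.le_floor
  have h5 := LO.Em.dd_norm x (0 : Zd d)
  rw [sub_zero, LO.Em.dd_comm] at h5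
  linarith

/-- spread-out eigenfunctions at all sites of a large box -/
theorem latt (d : ℕ) (hd : 3 ≤ d) : ∃ C : ℝ, 1 ≤ C ∧ ∀ (μ : Measure ℝ) [IsProbabilityMeasure μ]
    (lam Es κ0 ε ρ : ℝ) (L : ℕ) [NeZero L] (G : Set (T d L → ℝ)), MeasurableSet G →
    1 - ε ≤ (Measure.pi fun _ : T d L => μ).real G → 0 ≤ ε → 1 ≤ ρ →
    (∀ V ∈ G, ∃ (E0 : ℝ) (ψ : T d L → ℝ), |E0 - Es| ≤ κ0 ∧
          (∀ x, 1 ≤ ψ x ∧ ψ x ≤ 2) ∧ ∀ x, Hop lam V ψ x = E0 * ψ x) →
    ∃ G' : Set (Zd d → ℝ), MeasurableSet G' ∧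
      1 - (3 * ρ) ^ d * ε ≤ (Measure.infinitePi fun _ : Zd d => μ).real G' ∧
      ∀ ω ∈ G', ∀ κ : ℝ, κ0 ≤ κ → 0 < κ → κ ≤ 1 → 8 < L * Real.sqrt κ →
        ∀ E : ℝ, 2 * d + E ≤ Es + κ →
        ∀ u : Zd d → ℂ, IsGen (-1) (fun x => lam * ω x) E u → L2f u →
          ∀ x : Zd d, ‖x‖ ≤ ρ → ‖u x‖ ^ 2 ≤ C * κ ^ ((d : ℝ) / 2) * ∑' y, ‖u y‖ ^ 2 := by
  obtain ⟨C, hC, H⟩ := Pool.Agent.W788.AN.lattice d hd
  refine ⟨C, hC, ?_⟩
  intro μ _ lam Es κ0 ε ρ L _ G hG hP hε hρ hflat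
  set B : Finset (Zd d) := LO.bx (0 : Zd d) ⌊ρ⌋₊ with hB
  set R : Zd d → (Zd d → ℝ) → (T d L → ℝ) := fun a ω y => ω (lf y + a) with hR
  have hRm : ∀ a, Measurable (R a) := fun a => measurable_pi_iff.2 fun y => measurable_pi_apply _
  have hPa : ∀ a, (Measure.infinitePi fun _ : Zd d => μ).real (R a ⁻¹' G)ᶜ ≤ ε := by
    intro a
    have h1 : (Measure.infinitePi fun _ : Zd d => μ).real (R a ⁻¹' G) =
        (Measure.pi fun _ : T d L => μ).real G := by
      rw [← law_shift (d := d) (L := L) μ a, map_measureReal_apply (hRm a) hG]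
    have h2 := probReal_add_probReal_compl (μ := Measure.infinitePi fun _ : Zd d => μ) (hRm a hG)
    linarith
  have hm : MeasurableSet (⋂ a ∈ B, R a ⁻¹' G) :=
    Finset.measurableSet_biInter _ fun a _ => hRm a hG
  refine ⟨⋂ a ∈ B, R a ⁻¹' G, hm, ?_, ?_⟩
  · have h2 := probReal_add_probReal_compl (μ := Measure.infinitePi fun _ : Zd d => μ) hm
    have h3 : (Measure.infinitePi fun _ : Zd d => μ).real (⋂ a ∈ B, R a ⁻¹' G)ᶜ ≤
        (3 * ρ) ^ d * ε := by
      have e1 : (⋂ a ∈ B, R a ⁻¹' G)ᶜ = ⋃ a ∈ B, (R a ⁻¹' G)ᶜ := by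
        simp only [Set.compl_iInter]
      rw [e1]
      refine (measureReal_biUnion_finset_le _ _).trans
        ((Finset.sum_le_sum fun a _ => hPa a).trans ?_)
      rw [Finset.sum_const, nsmul_eq_mul, hB, LO.Em.card_bx]
      apply mul_le_mul_of_nonneg_right _ hε
      push_cast
      apply pow_le_pow_left₀ (by positivity)
      have := Nat.floor_le (show 0 ≤ ρ by linarith)
      linarith
    linarith
  · intro ω hω κ hκ hκ0 hκ1 hLκ E hE u hu hL2 x hx
    have hxB : x ∈ B := norm_zd x ρ hx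
    have hV : R x ω ∈ G := by
      have := Set.mem_iInter₂.1 hω x hxB
      exact this
    obtain ⟨E0, ψ, hE0, hψ, heig⟩ := hflat _ hV
    set Rr : ℝ := κ ^ (-(1 / 2 : ℝ)) with hRr
    have hR0 : 0 < Rr := Real.rpow_pos_of_pos hκ0 _
    have hR1 : 1 ≤ Rr := Real.one_le_rpow_of_pos_of_le_one_of_nonpos hκ0 hκ1 (by norm_num)
    have hRR : Rr ^ 2 = 1 / κ := by
      rw [hRr, ← Real.rpow_natCast, ← Real.rpow_mul hκ0.le]
      norm_num
      rw [Real.rpow_neg_one]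
    have hsR : Real.sqrt κ * Rr = 1 := by
      rw [hRr, Real.sqrt_eq_rpow, ← Real.rpow_add hκ0]
      norm_num
    have hLR : 8 * Rr < L := by
      have h1 := mul_lt_mul_of_pos_right hLκ hR0
      rw [mul_assoc, hsR, mul_one] at h1
      exact h1
    have h3 := H L lam E0 E (fun y => ω (y + x)) ψ Rr 0 hR1 (by
      rw [norm_zero]
      linarith) hψ heig (by
      rw [hRR]
      have h4 := (abs_le.1 hE0).1
      have h5 : 2 / (1 / κ) = 2 * κ := by field_simp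
      rw [h5]
      linarith) (fun y => u (y + x)) (gen_shift (-1) lam E ω u x hu) (l2_shift u x hL2)
    rw [tsum_shift] at h3
    simp only [zero_add] at h3
    refine h3.trans (le_of_eq ?_)
    rw [div_eq_mul_one_div, hRr, rpow_half κ hκ0 d]

/-- localization from a form bound on a torus of moderate size -/
theorem loc (d : ℕ) (hd : 1 ≤ d) (B : ℝ) (hB : 0 < B) : ∃ C : ℝ, 1 ≤ C ∧
    ∀ (μ : Measure ℝ) [IsProbabilityMeasure μ], Reg B μ → ∀ lam : ℝ, 0 < lam → lam ≤ 1 →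
    ∀ (L : ℕ) [NeZero L] (E1 ε : ℝ), 4 ≤ L → 0 ≤ ε → TorusBound d L μ lam E1 ε →
    ∀ κ : ℝ, 0 < κ → κ ≤ 1 → 512 * d / (L : ℝ) ^ 2 ≤ κ →
    (L + (4 / (κ * lam)) ^ C + 1) ^ d * (4 / (κ * lam)) ^ C * ε ≤ 1 →
    ∀ᵐ ω ∂(Measure.infinitePi fun _ : Zd d => μ),
      LO.Main.Dec d (-1) (fun x => lam * ω x) (Set.Iic (E1 - 2 * d - κ))
        (Real.sqrt κ / (4 * C * Real.log (2 / (κ * lam)))) := by
  obtain ⟨C, hC, Hb⟩ := LO.Main.below d hd B hB
  refine ⟨C, hC, ?_⟩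
  intro μ _ hμ lam hlam hl1 L _ E1 ε hL4 hε hT κ hκ hκ1 hLκ hX1
  have hC0 : 0 < C := by linarith
  set X : ℝ := (4 / (κ * lam)) ^ C with hX
  have hX0 : 0 < X := Real.rpow_pos_of_pos (by positivity) _
  set L0 : ℕ := L + ⌈X⌉₊ with hL0
  have hLpos : 0 < L := by omega
  have : NeZero L0 := ⟨by omega⟩
  have hL0X : X ≤ L0 := by
    rw [hL0]
    push_cast
    have h1 := Nat.le_ceil X
    have h2 : (0 : ℝ) ≤ L := Nat.cast_nonneg _
    linarith
  have hL0le : (L0 : ℝ) ≤ L + X + 1 := by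
    rw [hL0]
    push_cast
    have h1 := Nat.ceil_lt_add_one hX0.le
    linarith
  have hT2 := Pool.Agent.W788.Ims.torusBound hd hL4 (show L ≤ L0 by omega) μ lam E1 ε hT
  have hbase' : 2 / (κ / 2 * lam) = 4 / (κ * lam) := by
    field_simp
    norm_num
  have hε2 : 0 ≤ (L0 : ℝ) ^ d * ε := by positivity
  have hb := Hb μ hμ lam hlam hl1 L0 (E1 - 256 * d / (L : ℝ) ^ 2) ((L0 : ℝ) ^ d * ε) hε2 hT2
    (κ / 2) (by positivity) (by linarith) (by rw [hbase']; exact hL0X) (by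
      rw [hbase', ← hX]
      have h1 : (L0 : ℝ) ^ d ≤ (L + X + 1) ^ d := pow_le_pow_left₀ (Nat.cast_nonneg _) hL0le d
      calc X * ((L0 : ℝ) ^ d * ε) ≤ X * ((L + X + 1) ^ d * ε) := by gcongr
        _ = (L + X + 1) ^ d * X * ε := by ring
        _ ≤ 1 := hX1)
  filter_upwards [hb] with ω hω
  refine LO.Main.dec_mono _ _ _ _ _ _ hω ?_ ?_
  · apply Set.Iic_subset_Iic.2
    have h1 : 256 * d / (L : ℝ) ^ 2 = (512 * d / (L : ℝ) ^ 2) / 2 := by ring
    linarith
  · -- rate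
    have hbase : 2 ≤ 2 / (κ * lam) := by
      rw [le_div_iff₀ (by positivity)]
      have : κ * lam ≤ 1 := by nlinarith
      linarith
    have hlog : 0 < Real.log (2 / (κ * lam)) := Real.log_pos (by linarith)
    have e1 : 2 / (κ / 2 * lam) = 2 * (2 / (κ * lam)) := by
      field_simp
    have hX2 : Real.log (2 / (κ / 2 * lam)) ≤ 2 * Real.log (2 / (κ * lam)) := by
      rw [e1, Real.log_mul (by norm_num) (by positivity)]
      have e2 := Real.log_le_log (by norm_num) hbase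
      linarith
    have hX2pos : 0 < Real.log (2 / (κ / 2 * lam)) := by
      apply Real.log_pos
      rw [e1]
      linarith
    have hsq : Real.sqrt κ / 2 ≤ Real.sqrt (κ / 2) := by
      rw [Real.le_sqrt (by positivity) (by positivity), div_pow, Real.sq_sqrt hκ.le]
      linarith
    rw [div_le_div_iff₀ (by positivity) (by positivity)]
    have h0 := Real.sqrt_nonneg κ
    calc Real.sqrt κ * (C * Real.log (2 / (κ / 2 * lam)))
        ≤ Real.sqrt κ * (C * (2 * Real.log (2 / (κ * lam)))) := by gcongr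
      _ = (Real.sqrt κ / 2) * (4 * C * Real.log (2 / (κ * lam))) := by ring
      _ ≤ Real.sqrt (κ / 2) * (4 * C * Real.log (2 / (κ * lam))) := by gcongr

end Pool.Agent.W788.Gen3
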