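import Pool.Agent.H695R3.AN.Iter

/-!
# Local boundedness of subsolutions on the torus, dimension at least three

The proof is that of `Pool.Agent.H695R3.AN.moser`, which is stated for `d ≥ 4`.
-/

set_option autoImplicit false

open scoped BigOperators

namespace Pool.Agent.W788.AN

open Pool.Agent.H4R2.AE (T LapW)
open Pool.Agent.H695R3.AN
open Finset

variable {d L : ℕ}

/-- local boundedness of subsolutions -/
theorem moser (d : ℕ) (hd : 3 ≤ d) : ∃ C : ℝ, 1 ≤ C ∧ ∀ (L : ℕ) [NeZero L] (ψ w : T d L → ℝ)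
    (z : T d L) (R : ℝ), 1 ≤ R → R ≤ L → (∀ x, 1 ≤ ψ x ∧ ψ x ≤ 2) → (∀ x, 0 ≤ w x) →
    (∀ x, (nd z x : ℝ) ≤ 3 * R → LapW ψ w x ≤ (8 / R ^ 2) * w x) →
    w z ^ 2 ≤ C / R ^ d * Q z w (3 * R) := by
  obtain ⟨C, hC, H⟩ := mstep d hd
  have hd4 : (3 : ℝ) ≤ d := by exact_mod_cast hd
  have hd2 : 0 < (d : ℝ) - 2 := by linarith
  have hd0 : 0 < (d : ℝ) := by linarith
  set q : ℝ := (d : ℝ) / (d - 2) with hq
  have hq1 : 1 < q := by
    rw [hq, lt_div_iff₀ hd2]
    linarith
  have hq0 : 0 < q := by linarith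
  have hqi : ((d : ℝ) - 2) / d = q⁻¹ := by rw [hq, inv_div]
  set B : ℝ := 13 * C with hB
  have hB0 : 1 ≤ B := by linarith
  set S : ℝ := ∑' n : ℕ, (q ^ n)⁻¹ * (Real.log B + n * Real.log (4 * q)) with hS
  have hlB : 0 ≤ Real.log B := Real.log_nonneg hB0
  have hlq : 0 ≤ Real.log (4 * q) := Real.log_nonneg (by linarith)
  refine ⟨Real.exp (S + d * d), ?_, ?_⟩
  · apply Real.one_le_exp
    have : 0 ≤ S := tsum_nonneg fun n => by positivity
    positivity
  intro L _ ψ w z R hR hRL hψ hw hsub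
  have hR0 : 0 < R := by linarith
  set N : ℕ := ⌊R⌋₊ with hN
  have hNR : (N : ℝ) ≤ R := Nat.floor_le hR0.le
  have hRN : R < N + 1 := Nat.lt_floor_add_one R
  set W : ℕ → T d L → ℝ := fun n x => w x ^ (q ^ n) with hW
  have hW0 : ∀ n x, 0 ≤ W n x := fun n x => Real.rpow_nonneg (hw x) _
  have hWs : ∀ n, W (n + 1) = fun x => W n x ^ q := by
    intro n
    funext x
    simp only [hW]
    rw [← Real.rpow_mul (hw x), pow_succ]
  -- subsolutions
  have hWsub : ∀ n, ∀ x, (nd z x : ℝ) ≤ 3 * R → LapW ψ (W n) x ≤ (q ^ n * (8 / R ^ 2)) * W n x := by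
    intro n
    induction n with
    | zero =>
      intro x hx
      have h1 : W 0 = w := by
        funext y
        simp only [hW]
        rw [pow_zero, Real.rpow_one]
      rw [h1, pow_zero, one_mul]
      exact hsub x hx
    | succ n ih =>
      intro x hx
      have h1 := pow_sub ψ (W n) x (q ^ n * (8 / R ^ 2)) q hq1.le
        (fun x => by linarith [(hψ x).1]) (hW0 n) (ih x hx)
      rw [hWs n]
      refine h1.trans (le_of_eq ?_)
      rw [pow_succ]
      ring
  -- radii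
  set r : ℕ → ℝ := fun n => R * (1 + ((2 : ℝ) ^ n)⁻¹) + (N - n) with hr
  have hr3 : ∀ n, r n ≤ 3 * R := by
    intro n
    simp only [hr]
    have h1 : ((2 : ℝ) ^ n)⁻¹ ≤ 1 := inv_le_one_of_one_le₀ (one_le_pow₀ (by norm_num))
    have h2 : (0 : ℝ) ≤ n := Nat.cast_nonneg n
    nlinarith
  set D : ℕ → ℝ := fun n => Q z (W n) (r n) ^ ((q ^ n)⁻¹) with hD
  have hQ0 : ∀ n, 0 ≤ Q z (W n) (r n) := fun n => Q_nonneg _ _ _
  have hD0 : ∀ n, 0 ≤ D n := fun n => Real.rpow_nonneg (hQ0 n) _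
  -- one step
  have hstep : ∀ n, Q z (W (n + 1)) (r (n + 1)) ^ (q⁻¹) ≤
      (B * (4 * q) ^ n / R ^ 2) * Q z (W n) (r n) := by
    intro n
    have hpos : 0 < ((2 : ℝ) ^ (n + 1))⁻¹ := by positivity
    have hs : (r n - 1) - r (n + 1) = R * ((2 : ℝ) ^ (n + 1))⁻¹ := by
      simp only [hr]
      push_cast
      rw [pow_succ]
      field_simp
      ring
    have h1 := H L ψ (W n) z (q ^ n * (8 / R ^ 2)) (r (n + 1)) (r n - 1) (by positivity)
      (by
        have : 0 < R * ((2 : ℝ) ^ (n + 1))⁻¹ := by positivity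
        linarith) hψ (hW0 n) (fun x hx => hWsub n x (by linarith [hr3 n]))
    rw [hqi, ← hWs n, sub_add_cancel, hs] at h1
    refine h1.trans (mul_le_mul_of_nonneg_right ?_ (hQ0 n))
    have h2 : 1 / (R * ((2 : ℝ) ^ (n + 1))⁻¹) ^ 2 = 4 * 4 ^ n / R ^ 2 := by
      rw [mul_pow, inv_pow, ← pow_mul, mul_comm (n + 1) 2, pow_mul]
      norm_num
      rw [pow_succ]
      field_simp
    have h3 : 1 / (L : ℝ) ^ 2 ≤ 1 / R ^ 2 := by
      apply one_div_le_one_div_of_le (by positivity)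
      exact pow_le_pow_left₀ hR0.le hRL 2
    have h4 : (1 : ℝ) ≤ q ^ n := one_le_pow₀ hq1.le
    have h5 : (1 : ℝ) ≤ 4 ^ n := one_le_pow₀ (by norm_num)
    rw [h2]
    have h6 : q ^ n * (8 / R ^ 2) + 4 * 4 ^ n / R ^ 2 + 1 / R ^ 2 =
        (8 * q ^ n + 4 * 4 ^ n + 1) / R ^ 2 := by ring
    have h7 : 8 * q ^ n + 4 * 4 ^ n + 1 ≤ 13 * (4 * q) ^ n := by
      rw [mul_pow]
      nlinarith [mul_nonneg (sub_nonneg.2 h4) (sub_nonneg.2 h5)]
    calc C * (q ^ n * (8 / R ^ 2) + 4 * 4 ^ n / R ^ 2 + 1 / (L : ℝ) ^ 2)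
        ≤ C * (q ^ n * (8 / R ^ 2) + 4 * 4 ^ n / R ^ 2 + 1 / R ^ 2) := by
          apply mul_le_mul_of_nonneg_left _ (by linarith)
          linarith
      _ = C * ((8 * q ^ n + 4 * 4 ^ n + 1) / R ^ 2) := by rw [h6]
      _ ≤ C * (13 * (4 * q) ^ n / R ^ 2) := by
          apply mul_le_mul_of_nonneg_left _ (by linarith)
          apply div_le_div_of_nonneg_right h7 (by positivity)
      _ = _ := by rw [hB]; ring
  have hDstep : ∀ n, D (n + 1) ≤ Real.exp ((q ^ n)⁻¹ * (Real.log B + n * Real.log (4 * q)) -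
      (q ^ n)⁻¹ * (2 * Real.log R)) * D n := by
    intro n
    have hqn : 0 < (q ^ n)⁻¹ := by positivity
    have h1 : D (n + 1) = (Q z (W (n + 1)) (r (n + 1)) ^ (q⁻¹)) ^ ((q ^ n)⁻¹) := by
      simp only [hD]
      rw [← Real.rpow_mul (hQ0 _)]
      congr 1
      rw [pow_succ, mul_inv]
      ring
    rw [h1]
    have h2 := Real.rpow_le_rpow (Real.rpow_nonneg (hQ0 _) _) (hstep n) hqn.le
    refine h2.trans (le_of_eq ?_)
    have hp : 0 < B * (4 * q) ^ n / R ^ 2 := by positivity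
    rw [Real.mul_rpow hp.le (hQ0 n)]
    congr 1
    rw [Real.rpow_def_of_pos hp, Real.log_div (by positivity) (by positivity),
      Real.log_mul (by positivity) (by positivity), Real.log_pow, Real.log_pow]
    congr 1
    push_cast
    ring
  have hDN : ∀ n, D n ≤ Real.exp (∑ j ∈ Finset.range n, ((q ^ j)⁻¹ * (Real.log B +
      j * Real.log (4 * q)) - (q ^ j)⁻¹ * (2 * Real.log R))) * D 0 := by
    intro n
    induction n with
    | zero => simp
    | succ n ih =>
      rw [Finset.sum_range_succ, Real.exp_add]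
      refine (hDstep n).trans ?_
      have := mul_le_mul_of_nonneg_left ih (Real.exp_pos ((q ^ n)⁻¹ * (Real.log B +
        n * Real.log (4 * q)) - (q ^ n)⁻¹ * (2 * Real.log R))).le
      refine this.trans (le_of_eq ?_)
      ring
  -- the exponent
  have hqN : 0 < q ^ N := by positivity
  have hlR : 0 ≤ Real.log R := Real.log_nonneg hR
  have hexp : ∑ j ∈ Finset.range N, ((q ^ j)⁻¹ * (Real.log B +
      j * Real.log (4 * q)) - (q ^ j)⁻¹ * (2 * Real.log R)) ≤
      (S + d * d) - d * Real.log R := by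
    rw [Finset.sum_sub_distrib, ← Finset.sum_mul, geo q hq1 N]
    have h1 : ∑ j ∈ Finset.range N, (q ^ j)⁻¹ * (Real.log B + j * Real.log (4 * q)) ≤ S :=
      (summ q (Real.log B) (Real.log (4 * q)) hq1).sum_le_tsum _ fun j _ => by positivity
    have h2 : 1 - q⁻¹ = 2 / d := by
      rw [← hqi]
      field_simp
      ring
    rw [h2]
    have h3 : (1 - (q ^ N)⁻¹) / (2 / (d : ℝ)) * (2 * Real.log R) =
        d * Real.log R - d * ((q ^ N)⁻¹ * Real.log R) := by
      field_simp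
    rw [h3]
    have h4 : (q ^ N)⁻¹ * Real.log R ≤ d := by
      have h5 : Real.log R ≤ N + 1 := by
        have := Real.log_le_sub_one_of_pos hR0
        linarith
      have h6 : (1 : ℝ) + N * (q - 1) ≤ q ^ N := by
        have := one_add_mul_le_pow (a := q - 1) (by linarith) N
        rwa [add_sub_cancel] at this
      have h7 : q - 1 = 2 / (d - 2) := by
        rw [hq]
        field_simp
        ring
      have h10 : (N : ℝ) + 1 ≤ d * q ^ N := by
        have hN0 : (0 : ℝ) ≤ N := Nat.cast_nonneg N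
        have hqN1 : (1 : ℝ) ≤ q ^ N := one_le_pow₀ hq1.le
        have h9 : (N : ℝ) * (q - 1) ≤ q ^ N := by linarith
        have h11 : (N : ℝ) ≤ (d - 2) / 2 * q ^ N := by
          rw [h7] at h9
          have h12 : (N : ℝ) * (2 / (d - 2)) * ((d - 2) / 2) = N := by field_simp
          calc (N : ℝ) = (N : ℝ) * (2 / (d - 2)) * ((d - 2) / 2) := h12.symm
            _ ≤ q ^ N * ((d - 2) / 2) := mul_le_mul_of_nonneg_right h9 (by positivity)
            _ = _ := by ring
        nlinarith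
      rw [inv_mul_le_iff₀ hqN]
      linarith
    have h5 := mul_le_mul_of_nonneg_left h4 hd0.le
    linarith
  -- end
  have hW0' : W 0 = w := by
    funext y
    simp only [hW]
    rw [pow_zero, Real.rpow_one]
  have hfirst : D 0 ≤ Q z w (3 * R) := by
    simp only [hD]
    rw [pow_zero, inv_one, Real.rpow_one, hW0']
    exact Q_mono z w _ _ (hr3 0)
  have hlast : w z ^ 2 ≤ D N := by
    have h1 : (0 : ℝ) ≤ r N := by
      simp only [hr]
      rw [sub_self, add_zero]
      positivity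
    have h2 := le_Q z (W N) (r N) h1
    have h3 := Real.rpow_le_rpow (sq_nonneg _) h2 (z := (q ^ N)⁻¹) (by positivity)
    refine le_trans (le_of_eq ?_) h3
    simp only [hW]
    rw [← Real.rpow_natCast (w z ^ q ^ N) 2, ← Real.rpow_mul (hw z), ← Real.rpow_mul (hw z),
      ← Real.rpow_natCast (w z) 2]
    congr 1
    field_simp
  calc w z ^ 2 ≤ D N := hlast
    _ ≤ _ := hDN N
    _ ≤ Real.exp ((S + d * d) - d * Real.log R) * Q z w (3 * R) :=
        mul_le_mul (Real.exp_le_exp.2 hexp) hfirst (hD0 0) (Real.exp_pos _).le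
    _ = _ := by
        rw [Real.exp_sub]
        congr 2
        rw [mul_comm, Real.exp_mul, Real.exp_log hR0, Real.rpow_natCast]

end Pool.Agent.W788.AN
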