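import Pool.Agent.W788.Moser3
import Pool.Agent.H695R3.AN.Prob

/-!
# Pointwise bounds for eigenfunctions near the effective band edge, dimension at least three

The proofs are those of `Pool.Agent.H695R3.AN.Trans` and `Pool.Agent.H695R3.AN.Prob`, which are
stated for `d ≥ 4`.
-/

set_option autoImplicit false

open scoped BigOperators ENNReal
open MeasureTheory

namespace Pool.Agent.W788.AN

open Pool.Agent.H4R2
open Pool.Agent.H4R2.AE (T LapW Hop)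
open Pool.Agent.H4R2.LO (Zd Hg L2f IsGen)
open Pool.Agent.H695R3.AN (Q Q_nonneg nd nd_le_iff valMinAbs_add_le hop_abs lf lf_inj lf_add lf_sub hop_norm
  rpow_half)

variable {d L : ℕ}

/-- from an inequality for `Hop` to a pointwise bound -/
theorem point (d : ℕ) (hd : 3 ≤ d) : ∃ C : ℝ, 1 ≤ C ∧ ∀ (L : ℕ) [NeZero L] (lam E0 E : ℝ)
    (V ψ f : T d L → ℝ) (z : T d L) (R : ℝ), 1 ≤ R → R ≤ L → (∀ x, 1 ≤ ψ x ∧ ψ x ≤ 2) →
    (∀ x, Hop lam V ψ x = E0 * ψ x) → (∀ x, 0 ≤ f x) → E - E0 ≤ 2 / R ^ 2 →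
    (∀ x, (nd z x : ℝ) ≤ 3 * R → Hop lam V f x ≤ E * f x) →
    f z ^ 2 ≤ C / R ^ d * ∑ x, f x ^ 2 := by
  obtain ⟨C, hC, H⟩ := moser d hd
  refine ⟨4 * C, by linarith, ?_⟩
  intro L _ lam E0 E V ψ f z R hR hRL hψ heig hf hE hsub
  have hpos : ∀ x, 0 < ψ x := fun x => by linarith [(hψ x).1]
  have hR0 : 0 < R := by linarith
  set g : T d L → ℝ := fun x => f x / ψ x with hg
  have hfg : ∀ x, f x = ψ x * g x := fun x => by
    simp only [hg]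
    field_simp [(hpos x).ne']
  have hfun : f = fun y => ψ y * g y := funext hfg
  have hg0 : ∀ x, 0 ≤ g x := fun x => div_nonneg (hf x) (hpos x).le
  have h1 := H L ψ g z R hR hRL hψ hg0 (by
    intro x hx
    rw [AE.Gs.lapW_hop lam V ψ g x, ← hfun, heig x]
    have h2 := mul_le_mul_of_nonneg_left (hsub x hx) (hpos x).le
    have h3 : ψ x * (E * f x) - ψ x * g x * (E0 * ψ x) = (E - E0) * (ψ x ^ 2 * g x) := by
      rw [hfg x]; ring
    have h4 : 0 ≤ ψ x ^ 2 * g x := mul_nonneg (sq_nonneg _) (hg0 x)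
    have h5 : (E - E0) * (ψ x ^ 2 * g x) ≤ 2 / R ^ 2 * (ψ x ^ 2 * g x) :=
      mul_le_mul_of_nonneg_right hE h4
    have h6 : ψ x ^ 2 * g x ≤ 4 * g x := by
      apply mul_le_mul_of_nonneg_right _ (hg0 x)
      nlinarith [(hψ x).1, (hψ x).2]
    have h7 : 2 / R ^ 2 * (ψ x ^ 2 * g x) ≤ 2 / R ^ 2 * (4 * g x) :=
      mul_le_mul_of_nonneg_left h6 (by positivity)
    have h8 : 2 / R ^ 2 * (4 * g x) = 8 / R ^ 2 * g x := by ring
    linarith)
  have h2 : Q z g (3 * R) ≤ ∑ x, f x ^ 2 := by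
    unfold Q
    refine Finset.sum_le_sum fun x _ => ?_
    split_ifs
    · rw [hfg x, mul_pow]
      have h3 : 1 ≤ ψ x ^ 2 := one_le_pow₀ (hψ x).1
      nlinarith [sq_nonneg (g x)]
    · positivity
  have h3 : f z ^ 2 ≤ 4 * g z ^ 2 := by
    rw [hfg z, mul_pow]
    apply mul_le_mul_of_nonneg_right _ (sq_nonneg _)
    nlinarith [(hψ z).1, (hψ z).2]
  have h4 : 0 ≤ C / R ^ d := by positivity
  calc f z ^ 2 ≤ 4 * g z ^ 2 := h3
    _ ≤ 4 * (C / R ^ d * Q z g (3 * R)) := by linarith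
    _ ≤ 4 * (C / R ^ d * ∑ x, f x ^ 2) := by
        have := mul_le_mul_of_nonneg_left h2 h4
        linarith
    _ = _ := by ring

/-- pointwise bound for the eigenfunctions on the lattice -/
theorem lattice (d : ℕ) (hd : 3 ≤ d) : ∃ C : ℝ, 1 ≤ C ∧ ∀ (L : ℕ) [NeZero L] (lam E0 E : ℝ)
    (ω : Zd d → ℝ) (ψ : T d L → ℝ) (R : ℝ) (x : Zd d), 1 ≤ R →
    2 * (‖x‖ + 3 * R + 1) < L → (∀ x, 1 ≤ ψ x ∧ ψ x ≤ 2) →
    (∀ y, Hop lam (fun y => ω (lf y)) ψ y = E0 * ψ y) → 2 * d + E - E0 ≤ 2 / R ^ 2 →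
    ∀ u : Zd d → ℂ, IsGen (-1) (fun x => lam * ω x) E u → L2f u →
      ‖u x‖ ^ 2 ≤ C / R ^ d * ∑' y, ‖u y‖ ^ 2 := by
  obtain ⟨C, hC, H⟩ := point d hd
  refine ⟨C, hC, ?_⟩
  intro L _ lam E0 E ω ψ R x hR hL hψ heig hE u hu hL2
  have hx0 := norm_nonneg x
  -- the torus point
  set z : T d L := fun i => (x i : ZMod L) with hz
  have hxi : ∀ i, ((x i).natAbs : ℝ) ≤ ‖x‖ := by
    intro i
    have h1 := norm_le_pi_norm x i
    rw [← LO.Em.natAbs_norm] at h1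
    exact h1
  have hzi : ∀ i, (z i).valMinAbs = x i := by
    intro i
    rw [ZMod.valMinAbs_spec]
    refine ⟨rfl, ?_⟩
    have h2 : 2 * ((x i).natAbs : ℝ) < L := by linarith [hxi i]
    have h3 : 2 * (x i).natAbs < L := by exact_mod_cast h2
    rw [Set.mem_Ioc]
    omega
  have hlz : lf z = x := funext hzi
  have h1 := H L lam E0 (2 * d + E) (fun y => ω (lf y)) ψ (fun y => ‖u (lf y)‖) z R hR
    (by linarith) hψ heig (fun y => norm_nonneg _) hE (by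
      intro y hy
      have hy2 : ∀ i, (((y i).valMinAbs).natAbs : ℝ) ≤ ‖x‖ + 3 * R := by
        intro i
        have e1 := valMinAbs_add_le (y i - z i) (z i)
        rw [sub_add_cancel, hzi i] at e1
        have e2 := (nd_le_iff z y (nd z y)).1 le_rfl i
        have e3 : (((y i).valMinAbs).natAbs : ℝ) ≤ nd z y + (x i).natAbs := by
          exact_mod_cast e1.trans (by omega)
        linarith [hxi i]
      exact hop_norm lam E ω u y hu (lf_add y _ hy2 hL) (lf_sub y _ hy2 hL))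
  have h2 : ∑ y : T d L, ‖u (lf y)‖ ^ 2 ≤ ∑' y, ‖u y‖ ^ 2 := by
    rw [← tsum_fintype (L := .unconditional _)]
    exact tsum_comp_le_tsum_of_inj hL2 (fun y => by positivity) lf_inj
  rw [hlz] at h1
  exact h1.trans (mul_le_mul_of_nonneg_left h2 (by positivity))

/-- pointwise bound for the eigenfunctions on the torus -/
theorem torus (d : ℕ) (hd : 3 ≤ d) : ∃ C : ℝ, 1 ≤ C ∧ ∀ (L : ℕ) [NeZero L] (lam E0 E : ℝ)
    (V ψ : T d L → ℝ) (R : ℝ), 1 ≤ R → R ≤ L → (∀ x, 1 ≤ ψ x ∧ ψ x ≤ 2) →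
    (∀ y, Hop lam V ψ y = E0 * ψ y) → E - E0 ≤ 2 / R ^ 2 →
    ∀ u : T d L → ℝ, (∀ x, Hop lam V u x = E * u x) →
      ∀ x, u x ^ 2 ≤ C / R ^ d * ∑ y, u y ^ 2 := by
  obtain ⟨C, hC, H⟩ := point d hd
  refine ⟨C, hC, ?_⟩
  intro L _ lam E0 E V ψ R hR hRL hψ heig hE u hu x
  have h1 := H L lam E0 E V ψ (fun y => |u y|) x R hR hRL hψ heig (fun y => abs_nonneg _) hE
    (fun y _ => hop_abs lam E V u y (hu y))
  simp only [sq_abs] at h1
  exact h1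

/-- eigenfunctions on the torus near the bottom edge -/
theorem tor (d : ℕ) (hd : 3 ≤ d) : ∃ C : ℝ, 1 ≤ C ∧ ∀ (L : ℕ) [NeZero L] (lam K Es E0 : ℝ)
    (V ψ : T d L → ℝ), 0 ≤ K → |E0 - Es| ≤ K / (L : ℝ) ^ 2 → (∀ x, 1 ≤ ψ x ∧ ψ x ≤ 2) →
    (∀ x, Hop lam V ψ x = E0 * ψ x) → ∀ κ E : ℝ, 1 / (L : ℝ) ^ 2 ≤ κ → E ≤ Es + κ →
      ∀ u : T d L → ℝ, (∀ x, Hop lam V u x = E * u x) → ∀ x,
        u x ^ 2 ≤ C * (1 + K) ^ ((d : ℝ) / 2) * κ ^ ((d : ℝ) / 2) * ∑ y, u y ^ 2 := by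
  obtain ⟨C, hC, H⟩ := torus d hd
  refine ⟨C, hC, ?_⟩
  intro L _ lam K Es E0 V ψ hK hE0 hψ heig κ E hκ hE u hu x
  have hL0 : (0 : ℝ) < L := by exact_mod_cast Nat.pos_of_ne_zero (NeZero.ne L)
  have hκ0 : 0 < κ := lt_of_lt_of_le (by positivity) hκ
  have hL2κ : K / (L : ℝ) ^ 2 ≤ K * κ := by
    rw [div_eq_mul_one_div]
    exact mul_le_mul_of_nonneg_left hκ hK
  set κ' : ℝ := (1 + K) * κ with hκ'
  have hκ'0 : 0 < κ' := by positivity
  have hκκ' : κ ≤ κ' := by nlinarith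
  have hsum0 : 0 ≤ ∑ y, u y ^ 2 := Finset.sum_nonneg fun y _ => sq_nonneg _
  have hprod : (1 + K) ^ ((d : ℝ) / 2) * κ ^ ((d : ℝ) / 2) = κ' ^ ((d : ℝ) / 2) := by
    rw [hκ', Real.mul_rpow (by linarith) hκ0.le]
  rw [mul_assoc C, hprod]
  rcases le_or_gt κ' 1 with h1 | h1
  · set R : ℝ := κ' ^ (-(1 / 2 : ℝ)) with hR
    have hR0 : 0 < R := Real.rpow_pos_of_pos hκ'0 _
    have hR1 : 1 ≤ R := Real.one_le_rpow_of_pos_of_le_one_of_nonpos hκ'0 h1 (by norm_num)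
    have hRR : R ^ 2 = 1 / κ' := by
      rw [hR, ← Real.rpow_natCast, ← Real.rpow_mul hκ'0.le]
      norm_num
      rw [Real.rpow_neg_one]
    have hRL : R ≤ L := by
      have h2 : R ^ 2 ≤ (L : ℝ) ^ 2 := by
        rw [hRR, div_le_iff₀ hκ'0]
        rw [div_le_iff₀ (by positivity)] at hκ
        nlinarith [sq_nonneg (L : ℝ)]
      exact (pow_le_pow_iff_left₀ hR0.le hL0.le two_ne_zero).1 h2
    have h3 := H L lam E0 E V ψ R hR1 hRL hψ heig (by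
      rw [hRR]
      have h4 := (abs_le.1 hE0).1
      have h5 : 2 / (1 / κ') = 2 * κ' := by field_simp
      rw [h5]
      have : κ' = κ + K * κ := by rw [hκ']; ring
      linarith) u hu x
    refine h3.trans (le_of_eq ?_)
    rw [div_eq_mul_one_div, hR, rpow_half κ' hκ'0 d]
  · have h2 : u x ^ 2 ≤ ∑ y, u y ^ 2 :=
      Finset.single_le_sum (f := fun y => u y ^ 2) (fun y _ => sq_nonneg _) (Finset.mem_univ x)
    have h3 : 1 ≤ C * κ' ^ ((d : ℝ) / 2) := by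
      have : 1 ≤ κ' ^ ((d : ℝ) / 2) := Real.one_le_rpow h1.le (by positivity)
      nlinarith
    nlinarith

end Pool.Agent.W788.AN
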